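import Pool.Agent.H73.DU.SplitPrime

/-! # An element whose conjugates have independent valuations

PLAN. Take `Q` from `exists_split`, as a `HeightOneSpectrum (𝓞 L)`.
For `γ : L ≃ₐ[ℚ] L` let `Qγ := Q.comap γ̄ = {x | γ x ∈ Q}` where `γ̄ : 𝓞 L →+* 𝓞 L` is the
restriction of `γ` (`RingOfIntegers.mapRingHom` or the `MulSemiringAction` on `𝓞 L`), a prime
ideal, and `Q ≰ Qγ` for `γ ≠ 1` by `exists_split`. By prime avoidance (`Ideal.subset_union_prime`,
which allows two ideals that are not prime) there is `b ∈ Q`, `b ∉ Q ^ 2`, `b ∉ Qγ` for all `γ ≠ 1`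
(`Q ≰ Q ^ 2`: `Ideal.pow_lt_self`-type lemmas for Dedekind domains:
`Ideal.pow_right_strictAnti` or `Ideal.exists_mem_pow_notMem_pow_succ`).
`v x := ` the exponent of the `Q`-adic valuation: for `x ≠ 0`,
`v x = - Multiplicative.toAdd (WithZero.unzero (..)) ` of `HeightOneSpectrum.valuation L Q x`
(`WithZero.log` may be convenient), `v 0 = 0`. `v` is additive on nonzero elements; `v b = 1` since
`b ∈ Q`, `b ∉ Q ^ 2` (`HeightOneSpectrum.intValuation_le_pow_iff_dvd`,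
`HeightOneSpectrum.intValuation_lt_one_iff_dvd`...), `v (γ b) = 0` since `γ b ∉ Q`
(`valuation_of_algebraMap`, `intValuation_eq_one_iff`). -/

namespace Pool.Agent.H73.DU

open NumberField IsDedekindDomain

theorem exists_val (L : Type) [Field L] [NumberField L] [IsGalois ℚ L] (m : ℤ) (hm : m ≠ 0) :
    ∃ (v : L → ℤ) (b : L), (∀ x y, x ≠ 0 → y ≠ 0 → v (x * y) = v x + v y) ∧ b ≠ 0 ∧ v b = 1 ∧
      (∀ γ : L ≃ₐ[ℚ] L, γ ≠ 1 → v (γ b) = 0) ∧ ∃ y : 𝓞 L, b = 1 + m * (y : L) := by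
  classical
  obtain ⟨Q, l, hQ, hQ0, hl, hlQ, hlm, hsp⟩ := exists_split L m hm
  let P : HeightOneSpectrum (𝓞 L) := ⟨Q, hQ, hQ0⟩
  let φ : (L ≃ₐ[ℚ] L) → (𝓞 L →+* 𝓞 L) := fun γ =>
    RingOfIntegers.mapRingHom (γ : L →+* L)
  have hφ : ∀ γ (x : 𝓞 L), ((φ γ x : 𝓞 L) : L) = γ (x : L) := fun γ x => rfl
  let f : (L ≃ₐ[ℚ] L) → Ideal (𝓞 L) := fun γ => if γ = 1 then Q ^ 2 else Q.comap (φ γ)
  have hlt : Q ^ 2 < Q := by
    have := Q.pow_right_strictAnti hQ0 hQ.ne_top (show 1 < 2 by norm_num)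
    simpa using this
  have hex : ∃ b ∈ Q, ∀ γ, b ∉ f γ := by
    by_contra hcon
    push Not at hcon
    have hsub : (Q : Set (𝓞 L)) ⊆ ⋃ i ∈ (↑(Finset.univ : Finset (L ≃ₐ[ℚ] L)) : Set _), f i := by
      intro x hx
      obtain ⟨γ, hγ⟩ := hcon x hx
      simp only [Finset.coe_univ, Set.mem_univ, Set.iUnion_true, Set.mem_iUnion]
      exact ⟨γ, hγ⟩
    obtain ⟨γ, -, hγ⟩ := (Ideal.subset_union_prime (1 : L ≃ₐ[ℚ] L) 1 (fun i _ hi _ => by
      have : f i = Q.comap (φ i) := if_neg hi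
      rw [this]
      exact Ideal.IsPrime.comap _)).1 hsub
    by_cases h1 : γ = 1
    · have : f γ = Q ^ 2 := if_pos h1
      rw [this] at hγ
      exact absurd (lt_of_le_of_lt hγ hlt) (lt_irrefl _)
    · have : f γ = Q.comap (φ γ) := if_neg h1
      rw [this] at hγ
      obtain ⟨x, y, hx, hy, hyQ⟩ := hsp γ h1
      have h2 : φ γ x ∈ Q := hγ hx
      have h3 : φ γ x = y := by
        apply RingOfIntegers.ext
        rw [hφ, hy]
      exact hyQ (h3 ▸ h2)
  obtain ⟨b0, hb0Q, hb0⟩ := hex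
  -- make `b` congruent to `1` modulo `m`
  have hcop : IsCoprime ((l : ℤ) ^ 2) m :=
    ((Nat.prime_iff_prime_int.1 hl).irreducible.coprime_iff_not_dvd.2 hlm).pow_left
  obtain ⟨u, w, huw⟩ := hcop
  have huw' : (u : 𝓞 L) * (l : 𝓞 L) ^ 2 + (w : 𝓞 L) * (m : 𝓞 L) = 1 := by
    exact_mod_cast congrArg (Int.cast : ℤ → 𝓞 L) huw
  obtain ⟨b, hbdef⟩ : ∃ b : 𝓞 L, b = b0 * (w * m) + u * (l : 𝓞 L) ^ 2 := ⟨_, rfl⟩
  have hbb0 : b - b0 = (1 - b0) * u * (l : 𝓞 L) ^ 2 := by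
    have : (w : 𝓞 L) * m = 1 - u * (l : 𝓞 L) ^ 2 := by rw [← huw']; ring
    rw [hbdef, this]
    ring
  have hl2 : ∀ c : 𝓞 L, c * (l : 𝓞 L) ^ 2 ∈ Q ^ 2 := fun c =>
    (Q ^ 2).mul_mem_left _ (Ideal.pow_mem_pow hlQ 2)
  have hbQ : b ∈ Q := by
    have : b = b0 + (b - b0) := by ring
    rw [this, hbb0]
    exact Q.add_mem hb0Q (Ideal.pow_le_self two_ne_zero (hl2 _))
  have hb : ∀ γ, b ∉ f γ := by
    intro γ hγb
    apply hb0 γ
    have : b0 = b - (b - b0) := by ring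
    rw [this, hbb0]
    refine (f γ).sub_mem hγb ?_
    by_cases h1 : γ = 1
    · rw [show f γ = Q ^ 2 from if_pos h1]
      exact hl2 _
    · rw [show f γ = Q.comap (φ γ) from if_neg h1, Ideal.mem_comap, map_mul, map_pow,
        map_natCast]
      exact Q.mul_mem_left _ (Ideal.pow_le_self two_ne_zero (Ideal.pow_mem_pow hlQ 2))
  have hbm : ∃ y : 𝓞 L, (b : L) = 1 + m * (y : L) := by
    refine ⟨w * (b0 - 1), ?_⟩
    have h1 : b = 1 + m * (w * (b0 - 1)) := by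
      have : (u : 𝓞 L) * (l : 𝓞 L) ^ 2 = 1 - w * m := by rw [← huw']; ring
      rw [hbdef, this]
      ring
    conv_lhs => rw [h1]
    simp
  have hb2 : b ∉ Q ^ 2 := by
    have := hb 1
    rwa [show f 1 = Q ^ 2 from if_pos rfl] at this
  have hbz : b ≠ 0 := by
    intro h
    rw [h] at hb2
    exact hb2 (Ideal.zero_mem _)
  have hbL : (b : L) ≠ 0 := by
    intro h
    exact hbz (RingOfIntegers.ext h)
  have hval : P.intValuation b = WithZero.exp (-1 : ℤ) := by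
    have h1 : P.intValuation b ≤ WithZero.exp (-((1 : ℕ) : ℤ)) :=
      (P.intValuation_le_pow_iff_mem b 1).2 (by simpa using hbQ)
    have h2 : ¬ P.intValuation b ≤ WithZero.exp (-((2 : ℕ) : ℤ)) :=
      fun h => hb2 ((P.intValuation_le_pow_iff_mem b 2).1 h)
    rw [P.intValuation_if_neg hbz] at h1 h2 ⊢
    rw [WithZero.exp_le_exp] at h1 h2
    rw [WithZero.exp_inj]
    push_cast at h1 h2
    omega
  refine ⟨fun x => - WithZero.log (P.valuation L x), (b : L), ?_, hbL, ?_, ?_, hbm⟩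
  · intro x y hx hy
    have hx' : P.valuation L x ≠ 0 := (Valuation.ne_zero_iff _).2 hx
    have hy' : P.valuation L y ≠ 0 := (Valuation.ne_zero_iff _).2 hy
    simp only [map_mul, WithZero.log_mul hx' hy']
    ring
  · have : P.valuation L (b : L) = P.intValuation b := P.valuation_of_algebraMap b
    simp only [this, hval, WithZero.log_exp]
    norm_num
  · intro γ hγ
    have h1 : b ∉ Q.comap (φ γ) := by
      have := hb γ
      rwa [show f γ = Q.comap (φ γ) from if_neg hγ] at this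
    have h2 : φ γ b ∉ P.asIdeal := h1
    have h3 : P.valuation L (γ (b : L)) = 1 := by
      have := (P.valuation_eq_one_iff_notMem (K := L) (r := φ γ b)).2 h2
      exact this
    simp only [h3, WithZero.log_one, neg_zero]

end Pool.Agent.H73.DU
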