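import Pool.Agent.H73.DU.LocTriv
import Pool.Agent.H73.DU.ValHom
import Pool.Agent.H73.DU.Kummer

/-! # The absolute Galois group of `ℚ` has the embedding property -/

namespace Pool.Agent.H73.DU

/-- the cyclic subgroups and the subgroups of the decomposition groups at the primes of `T` -/
def famT (T : Finset ℕ) : Set (Subgroup GQ) :=
  {U | Cyc U ∨ ∃ (l : ℕ) (hl : Fact l.Prime) (a : GQ), l ∈ T ∧ cj a U ≤ decomp ℚ_[l] (emb l)}

private theorem alg_cl (inst : Algebra ℚ (AlgebraicClosure ℚ)) :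
    IsAlgClosure ℚ (AlgebraicClosure ℚ) := by
  have h : inst = AlgebraicClosure.instAlgebra ℚ := Subsingleton.elim _ _
  subst h
  infer_instance

theorem cj_cj {G : Type} [Group G] (a b : G) (U : Subgroup G) :
    cj a (cj b U) = cj (b * a) U := by
  ext g
  rw [mem_cj_iff, mem_cj_iff]
  constructor
  · rintro ⟨u, hu, rfl⟩
    obtain ⟨v, hv, rfl⟩ := mem_cj_iff.1 hu
    exact ⟨v, hv, by group⟩
  · rintro ⟨u, hu, rfl⟩
    exact ⟨_, mem_cj hu, by group⟩

theorem cj_one {G : Type} [Group G] (U : Subgroup G) : cj 1 U = U := by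
  ext g
  rw [mem_cj_iff]
  simp

theorem cyc_cj {G : Type} [Group G] (a : G) {U : Subgroup G} (h : Cyc U) : Cyc (cj a U) := by
  obtain ⟨g, rfl⟩ := h
  refine ⟨a⁻¹ * g * a, ?_⟩
  unfold cj
  rw [MonoidHom.map_zpowers]
  simp

open IntermediateField in
theorem nice_rat (T : Finset ℕ) : Nice GQ (famT T) := by
  classical
  have : IsAlgClosure ℚ (AlgebraicClosure ℚ) := alg_cl inferInstance
  have : Normal ℚ (AlgebraicClosure ℚ) := IsAlgClosure.normal ℚ _
  have : IsGalois ℚ (AlgebraicClosure ℚ) := {}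
  refine ⟨inferInstance, ?_, ?_, ?_⟩
  · exact Or.inl ⟨1, by rw [Subgroup.zpowers_one_eq_bot]⟩
  · rintro U (hU | ⟨l, hl, b, hlT, hU⟩) a
    · exact Or.inl (cyc_cj a hU)
    · refine Or.inr ⟨l, hl, a⁻¹ * b, hlT, ?_⟩
      rw [cj_cj]
      have : a * (a⁻¹ * b) = b := by group
      rw [this]
      exact hU
  intro p hp N hN _
  have : Fact p.Prime := ⟨hp⟩
  have : NeZero (p : AlgebraicClosure ℚ) := ⟨by exact_mod_cast hp.ne_zero⟩
  obtain ⟨E, hE, hEN⟩ := (krullTopology_mem_nhds_one_iff ℚ (AlgebraicClosure ℚ) (N : Set _)).1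
    (hN.mem_nhds N.one_mem)
  obtain ⟨ζ, hζ⟩ := HasEnoughRootsOfUnity.exists_primitiveRoot (AlgebraicClosure ℚ) p
  have : FiniteDimensional ℚ ℚ⟮ζ⟯ := adjoin.finiteDimensional (Algebra.IsIntegral.isIntegral ζ)
  have := hE
  have : FiniteDimensional ℚ (E ⊔ ℚ⟮ζ⟯ : IntermediateField ℚ (AlgebraicClosure ℚ)) :=
    finiteDimensional_sup E _
  let L : IntermediateField ℚ (AlgebraicClosure ℚ) :=
    normalClosure ℚ (E ⊔ ℚ⟮ζ⟯ : IntermediateField ℚ (AlgebraicClosure ℚ)) (AlgebraicClosure ℚ)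
  have hle : (E ⊔ ℚ⟮ζ⟯ : IntermediateField ℚ (AlgebraicClosure ℚ)) ≤ L := le_normalClosure _
  have : FiniteDimensional ℚ L := normalClosure.is_finiteDimensional ℚ _ _
  have : Normal ℚ L := normalClosure.normal ℚ _ _
  have : IsGalois ℚ L := {}
  have : NumberField L := {}
  have hζL : ζ ∈ L := hle ((le_sup_right : ℚ⟮ζ⟯ ≤ _) (mem_adjoin_simple_self ℚ ζ))
  -- the modulus
  let T' := T.filter Nat.Prime
  let m : ℤ := ∏ l ∈ T', (l : ℤ) ^ 3
  have hm : m ≠ 0 := Finset.prod_ne_zero_iff.2 fun l hl =>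
    pow_ne_zero _ (by exact_mod_cast (Finset.mem_filter.1 hl).2.ne_zero)
  obtain ⟨v, b, hv, hb, hvb, hvγ, y, hy⟩ := exists_val L m hm
  obtain ⟨θ, h1, h2, h4, h3⟩ := kummer_core L hζ hζL v b hv hb hvb hvγ
  have hLN : L.fixingSubgroup ≤ N := by
    intro x hx
    exact hEN (fixingSubgroup_antitone (le_trans le_sup_left hle) hx)
  refine ⟨L.fixingSubgroup, θ, inferInstance, fixingSubgroup_isOpen L, hLN, h1, h2, ?_, h3⟩
  rintro U (hU | ⟨l, hl, a0, hlT, hU⟩)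
  · exact Or.inl hU
  right
  intro a u hu huN
  obtain ⟨u0, hu0, rfl⟩ := mem_cj_iff.1 hu
  have hlm : (l : ℤ) ^ 3 ∣ m :=
    Finset.dvd_prod_of_mem (fun l : ℕ => (l : ℤ) ^ 3)
      (Finset.mem_filter.2 ⟨hlT, hl.out⟩)
  set g : GQ := a0⁻¹ * a with hg
  set d : GQ := a0⁻¹ * u0 * a0 with hd
  have hdD : d ∈ decomp ℚ_[l] (emb l) := hU (mem_cj hu0)
  have hgd : g⁻¹ * d * g = a⁻¹ * u0 * a := by
    rw [hg, hd]; group
  have hnorm : L.fixingSubgroup.Normal := inferInstance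
  have hdN : d ∈ L.fixingSubgroup := by
    have h5 := hnorm.conj_mem _ huN g
    have h6 : g * (a⁻¹ * u0 * a) * g⁻¹ = d := by rw [hg, hd]; group
    rwa [h6] at h5
  rw [← hgd]
  refine h4 g d hdN fun x hx => ?_
  exact locTriv l L hζ hζL b (y : L) (NumberField.RingOfIntegers.isIntegral_coe y) m hlm hy g d
    hdN hdD x hx

end Pool.Agent.H73.DU
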