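import Mathlib

/-! # Sylow theory modulo a normal subgroup of finite index

PLAN. Let `π = QuotientGroup.mk' N : G →* G ⧸ N` (a finite group, `Nat.card (G ⧸ N) = N.index`).
For `N ≤ S` one has `(S.map π).comap π = S` (`Subgroup.comap_map_eq`, `QuotientGroup.ker_mk'`),
`Nat.card (S.map π) = N.relIndex S`, and `S.relIndex S' = (S.map π).relIndex (S'.map π)` for
`N ≤ S ≤ S'` (`Subgroup.relIndex_comap`, `Subgroup.index_comap_of_surjective` and so on).
* `exists_syl`: a Sylow subgroup of the finite group `H.map π`, mapped to `G ⧸ N` and pulled back.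
* `syl_conj`: `S.map π` is a `p`-group, contained in a Sylow `Q1` of `G ⧸ N`
  (`IsPGroup.exists_le_sylow`); `T.map π` contains a Sylow subgroup of itself, which has
  index prime to `p` in `G ⧸ N`, so is a Sylow `Q2` of `G ⧸ N`; `Q1`, `Q2` are conjugate.
* `exists_over`: `Sylow.exists_subgroup_card_pow_succ` in `G ⧸ N`; a subgroup of index `p` in a
  group of order `p ^ (k+1)` is normal (`Subgroup.normal_of_index_eq_minFac_card`); normality of
  `T.subgroupOf T'` from the quotient: for `t ∈ T`, `x ∈ T'`, `π (x t x⁻¹) ∈ T.map π`. -/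

namespace Pool.Agent.H73.DU

/-- `S` contains `N` and `S / N` is a `p`-group -/
def PQ {G : Type} [Group G] (p : ℕ) (N S : Subgroup G) : Prop :=
  N ≤ S ∧ ∃ k, N.relIndex S = p ^ k

variable {G : Type} [Group G] {p : ℕ} [Fact p.Prime]

private theorem syl_relIndex (N S : Subgroup G) [N.Normal] :
    N.relIndex S = Nat.card (S.map (QuotientGroup.mk' N)) := by
  have h1 : (⊥ : Subgroup (G ⧸ N)).comap (QuotientGroup.mk' N) = N := by
    rw [MonoidHom.comap_bot, QuotientGroup.ker_mk']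
  rw [← Subgroup.relIndex_bot_left, ← Subgroup.relIndex_comap, h1]

private theorem syl_comap (N S : Subgroup G) [N.Normal] (h : N ≤ S) :
    (S.map (QuotientGroup.mk' N)).comap (QuotientGroup.mk' N) = S :=
  Subgroup.comap_map_eq_self (by rw [QuotientGroup.ker_mk']; exact h)

private theorem syl_map (N : Subgroup G) [N.Normal] (K : Subgroup (G ⧸ N)) :
    (K.comap (QuotientGroup.mk' N)).map (QuotientGroup.mk' N) = K :=
  Subgroup.map_comap_eq_self_of_surjective (QuotientGroup.mk'_surjective N) K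

private theorem syl_PQ (N : Subgroup G) [N.Normal] [N.FiniteIndex] {K : Subgroup (G ⧸ N)}
    (hK : IsPGroup p K) : PQ p N (K.comap (QuotientGroup.mk' N)) := by
  refine ⟨QuotientGroup.le_comap_mk' N K, ?_⟩
  rw [syl_relIndex, syl_map]
  exact IsPGroup.iff_card.1 hK

private theorem syl_sub {Q : Type} [Group Q] [Finite Q] (K : Subgroup Q) (P : Sylow p K) :
    IsPGroup p ((P : Subgroup K).map K.subtype) ∧ (P : Subgroup K).map K.subtype ≤ K ∧
      ¬ p ∣ ((P : Subgroup K).map K.subtype).relIndex K := by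
  refine ⟨P.2.map _, ?_, ?_⟩
  · rintro _ ⟨x, -, rfl⟩
    exact x.2
  · have h1 : ((P : Subgroup K).map K.subtype).subgroupOf K = P :=
      Subgroup.comap_map_eq_self_of_injective K.subtype_injective _
    rw [Subgroup.relIndex, h1]
    exact P.not_dvd_index

theorem exists_syl (p : ℕ) [Fact p.Prime] (N H : Subgroup G) [N.Normal] [N.FiniteIndex]
    (hNH : N ≤ H) : ∃ T : Subgroup G, PQ p N T ∧ T ≤ H ∧ ¬ p ∣ T.relIndex H := by
  obtain ⟨P⟩ := (inferInstance : Nonempty (Sylow p (H.map (QuotientGroup.mk' N))))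
  obtain ⟨h1, h2, h3⟩ := syl_sub (H.map (QuotientGroup.mk' N)) P
  refine ⟨_, syl_PQ N h1, ?_, ?_⟩
  · calc _ ≤ (H.map (QuotientGroup.mk' N)).comap (QuotientGroup.mk' N) := Subgroup.comap_mono h2
      _ = H := syl_comap N H hNH
  · rw [Subgroup.relIndex_comap]
    exact h3

open scoped Pointwise in
theorem syl_conj (N S T : Subgroup G) [N.Normal] [N.FiniteIndex] (hS : PQ p N S)
    (hNT : N ≤ T) (hT : ¬ p ∣ T.index) :
    ∃ g : G, S.map (MulAut.conj g).toMonoidHom ≤ T := by
  have hS' : IsPGroup p (S.map (QuotientGroup.mk' N)) := by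
    rw [IsPGroup.iff_card, ← syl_relIndex]
    exact hS.2
  obtain ⟨Q1, hQ1⟩ := hS'.exists_le_sylow
  obtain ⟨P⟩ := (inferInstance : Nonempty (Sylow p (T.map (QuotientGroup.mk' N))))
  obtain ⟨h1, h2, h3⟩ := syl_sub (T.map (QuotientGroup.mk' N)) P
  have hTi : (T.map (QuotientGroup.mk' N)).index = T.index := by
    rw [← Subgroup.index_comap_of_surjective _ (QuotientGroup.mk'_surjective N), syl_comap N T hNT]
  have h4 : ¬ p ∣ ((P : Subgroup _).map (T.map (QuotientGroup.mk' N)).subtype).index := by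
    rw [← Subgroup.relIndex_mul_index h2, hTi]
    intro h
    rcases (Fact.out : p.Prime).dvd_mul.1 h with h | h
    · exact h3 h
    · exact hT h
  obtain ⟨q, hq⟩ := MulAction.exists_smul_eq (G ⧸ N) Q1 (h1.toSylow h4)
  obtain ⟨g, rfl⟩ := QuotientGroup.mk'_surjective N q
  refine ⟨g, ?_⟩
  rintro _ ⟨s, hs, rfl⟩
  have h5 : QuotientGroup.mk' N s ∈ (Q1 : Subgroup (G ⧸ N)) := hQ1 ⟨s, hs, rfl⟩
  have h6 : MulAut.conj (QuotientGroup.mk' N g) • QuotientGroup.mk' N s ∈
      MulAut.conj (QuotientGroup.mk' N g) • (Q1 : Subgroup (G ⧸ N)) :=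
    Subgroup.smul_mem_pointwise_smul _ _ _ h5
  have h7 : MulAut.conj (QuotientGroup.mk' N g) • (Q1 : Subgroup (G ⧸ N)) =
      (P : Subgroup _).map (T.map (QuotientGroup.mk' N)).subtype := by
    have h8 := congrArg (fun R : Sylow p (G ⧸ N) => (R : Subgroup (G ⧸ N))) hq
    exact h8
  rw [h7] at h6
  have h9 : QuotientGroup.mk' N (g * s * g⁻¹) ∈ T.map (QuotientGroup.mk' N) := by
    rw [map_mul, map_mul, map_inv]
    exact h2 h6
  have h10 : g * s * g⁻¹ ∈ (T.map (QuotientGroup.mk' N)).comap (QuotientGroup.mk' N) := h9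
  rw [syl_comap N T hNT] at h10
  exact h10

theorem exists_over (N T : Subgroup G) [N.Normal] [N.FiniteIndex] (hT : PQ p N T)
    (h : p ∣ T.index) :
    ∃ T' : Subgroup G, PQ p N T' ∧ T ≤ T' ∧ T.relIndex T' = p ∧ (T.subgroupOf T').Normal := by
  have hp : p.Prime := Fact.out
  obtain ⟨hNT, k, hk⟩ := hT
  have hk' : Nat.card (T.map (QuotientGroup.mk' N)) = p ^ k := by
    rw [← syl_relIndex]
    exact hk
  have hTi : (T.map (QuotientGroup.mk' N)).index = T.index := by
    rw [← Subgroup.index_comap_of_surjective _ (QuotientGroup.mk'_surjective N), syl_comap N T hNT]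
  have hdvd : p ^ (k + 1) ∣ Nat.card (G ⧸ N) := by
    rw [← Subgroup.card_mul_index (T.map (QuotientGroup.mk' N)), hk', hTi, pow_succ]
    exact Nat.mul_dvd_mul_left _ h
  obtain ⟨K, hK, hTK⟩ := Sylow.exists_subgroup_card_pow_succ hdvd hk'
  have hr : (T.map (QuotientGroup.mk' N)).relIndex K = p := by
    have h1 := Subgroup.relIndex_mul_relIndex (⊥ : Subgroup (G ⧸ N)) _ _ bot_le hTK
    rw [Subgroup.relIndex_bot_left, Subgroup.relIndex_bot_left, hK, hk', pow_succ] at h1
    exact Nat.eq_of_mul_eq_mul_left (pow_pos hp.pos k) h1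
  have hn : ((T.map (QuotientGroup.mk' N)).subgroupOf K).Normal := by
    refine Subgroup.normal_of_index_eq_minFac_card ?_
    rw [hK, hp.pow_minFac (Nat.succ_ne_zero k)]
    exact hr
  have hT' := syl_comap N T hNT
  have hmem : ∀ x : G, x ∈ T ↔ QuotientGroup.mk' N x ∈ T.map (QuotientGroup.mk' N) := by
    intro x
    conv_lhs => rw [← hT']
    exact Iff.rfl
  refine ⟨K.comap (QuotientGroup.mk' N), syl_PQ N (IsPGroup.iff_card.2 ⟨k + 1, hK⟩), ?_, ?_, ?_⟩
  · intro x hx
    exact hTK ⟨x, hx, rfl⟩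
  · rw [← hr]
    conv_lhs => rw [← hT']
    rw [Subgroup.relIndex_comap, syl_map]
  · refine ⟨fun n hn' g => ?_⟩
    rw [Subgroup.mem_subgroupOf, hmem] at hn' ⊢
    have h1 := hn.conj_mem ⟨QuotientGroup.mk' N (n : G), n.2⟩ (Subgroup.mem_subgroupOf.2 hn')
      ⟨QuotientGroup.mk' N (g : G), g.2⟩
    rw [Subgroup.mem_subgroupOf] at h1
    have h2 : QuotientGroup.mk' N ((g * n * g⁻¹ : K.comap (QuotientGroup.mk' N)) : G) =
        QuotientGroup.mk' N (g : G) * QuotientGroup.mk' N (n : G) *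
          (QuotientGroup.mk' N (g : G))⁻¹ := by
      rw [Subgroup.coe_mul, Subgroup.coe_mul, Subgroup.coe_inv, map_mul, map_mul, map_inv]
    rw [h2]
    exact h1

end Pool.Agent.H73.DU
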