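import Pool.Agent.H73.DU.Ind

/-! # Profinite groups with many locally trivial extensions of elementary abelian type -/

namespace Pool.Agent.H73.DU

/-- a subgroup is cyclic -/
def Cyc {G : Type} [Group G] (U : Subgroup G) : Prop := ∃ g, U = Subgroup.zpowers g

/-- every open normal subgroup contains an open normal `N'` with a homomorphism `θ` from `N'` to
`F_p`, with open kernel, trivial on the non-cyclic members of `𝒰`, whose conjugates under `G / N'`
are linearly independent -/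
def EmbP (p : ℕ) (G : Type) [Group G] [TopologicalSpace G] (𝒰 : Set (Subgroup G)) : Prop :=
  ∀ N : Subgroup G, IsOpen (N : Set G) → N.Normal → ∃ (N' : Subgroup G) (θ : G → ZMod p),
    N'.Normal ∧ IsOpen (N' : Set G) ∧ N' ≤ N ∧
    (∀ a ∈ N', ∀ b ∈ N', θ (a * b) = θ a + θ b) ∧
    (∃ U : Subgroup G, IsOpen (U : Set G) ∧ U ≤ N' ∧ ∀ u ∈ U, θ u = 0) ∧
    (∀ U ∈ 𝒰, Cyc U ∨ ∀ a : G, ∀ u ∈ cj a U, u ∈ N' → θ u = 0) ∧
    ∀ (ι : Type) [Fintype ι] (f : ι → G) (c : ι → ZMod p),
      (∀ i j, (f i)⁻¹ * f j ∈ N' → i = j) →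
      (∀ n ∈ N', ∑ i, c i * θ ((f i)⁻¹ * n * f i) = 0) → c = 0

/-- compact topological groups with the embedding property for all primes -/
structure Nice (G : Type) [Group G] [TopologicalSpace G] [IsTopologicalGroup G]
    (𝒰 : Set (Subgroup G)) : Prop where
  comp : CompactSpace G
  bot : ⊥ ∈ 𝒰
  conj : ∀ U ∈ 𝒰, ∀ a : G, cj a U ∈ 𝒰
  emb : ∀ p, p.Prime → EmbP p G 𝒰

variable {G : Type} [Group G] [TopologicalSpace G] [IsTopologicalGroup G] {𝒰 : Set (Subgroup G)}

theorem Nice.fin (hG : Nice G 𝒰) {H : Subgroup G} (hH : IsOpen (H : Set G)) :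
    Finite (G ⧸ H) := by
  have := hG.comp
  exact H.quotient_finite_of_isOpen hH

theorem Nice.finiteIndex (hG : Nice G 𝒰) {H : Subgroup G} (hH : IsOpen (H : Set G)) :
    H.FiniteIndex := by
  have := hG.fin hH
  exact Subgroup.finiteIndex_of_finite_quotient

theorem Nice.core (hG : Nice G 𝒰) {H : Subgroup G} (hH : IsOpen (H : Set G)) :
    IsOpen (H.normalCore : Set G) := by
  have := hG.finiteIndex hH
  exact Subgroup.isOpen_of_isClosed_of_finiteIndex _
    (H.normalCore_isClosed (H.isClosed_of_isOpen hH))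

theorem open_map {H : Subgroup G} (hH : IsOpen (H : Set G)) {K : Subgroup H}
    (hK : IsOpen (K : Set H)) : IsOpen ((K.map H.subtype : Subgroup G) : Set G) := by
  have : ((K.map H.subtype : Subgroup G) : Set G) = Subtype.val '' (K : Set H) := by
    ext x
    simp
  rw [this]
  exact hH.isOpenMap_subtype_val _ hK

theorem open_comap {K : Subgroup G} (hK : IsOpen (K : Set G)) (H : Subgroup G) :
    IsOpen ((K.subgroupOf H : Subgroup H) : Set H) :=
  hK.preimage continuous_subtype_val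

omit [TopologicalSpace G] [IsTopologicalGroup G] in
theorem map_cj {H : Subgroup G} (a : H) (V : Subgroup H) :
    (cj a V).map H.subtype = cj (a : G) (V.map H.subtype) := by
  ext x
  rw [Subgroup.mem_map, mem_cj_iff]
  constructor
  · rintro ⟨y, hy, rfl⟩
    obtain ⟨v, hv, rfl⟩ := mem_cj_iff.1 hy
    exact ⟨_, ⟨v, hv, rfl⟩, by simp⟩
  · rintro ⟨u, hu, rfl⟩
    obtain ⟨v, hv, rfl⟩ := Subgroup.mem_map.1 hu
    exact ⟨_, mem_cj hv, by simp⟩

theorem Nice.sub (hG : Nice G 𝒰) {H : Subgroup G} (hH : IsOpen (H : Set G)) :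
    Nice H (res H 𝒰) := by
  have := hG.comp
  refine ⟨isCompact_iff_compactSpace.1 (H.isClosed_of_isOpen hH).isCompact, ?_, ?_, ?_⟩
  · change (⊥ : Subgroup H).map H.subtype ∈ 𝒰
    rw [Subgroup.map_bot]
    exact hG.bot
  · intro V hV a
    change (cj a V).map H.subtype ∈ 𝒰
    rw [map_cj]
    exact hG.conj _ hV _
  intro p hp N hN hNn
  have hN0 : IsOpen ((N.map H.subtype : Subgroup G) : Set G) := open_map hH hN
  obtain ⟨N', θ, h1, h2, h3, h4, ⟨U, hU1, hU2, hU3⟩, h5, h6⟩ :=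
    hG.emb p hp _ (hG.core hN0) (Subgroup.normalCore_normal _)
  have hN'N : N' ≤ N.map H.subtype := h3.trans (Subgroup.normalCore_le _)
  refine ⟨N'.subgroupOf H, fun h => θ h, ?_, open_comap h2 H, ?_, ?_, ⟨U.subgroupOf H,
    open_comap hU1 H, ?_, ?_⟩, ?_, ?_⟩
  · exact h1.subgroupOf H
  · intro x hx
    obtain ⟨y, hy, hyx⟩ := Subgroup.mem_map.1 (hN'N (Subgroup.mem_subgroupOf.1 hx))
    have : y = x := Subtype.ext hyx
    rw [← this]; exact hy
  · intro a ha b hb
    exact h4 a ha b hb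
  · intro x hx
    exact hU2 hx
  · intro u hu
    exact hU3 u hu
  · intro V hV
    rcases h5 _ hV with ⟨g, hg⟩ | h
    · left
      have hgH : g ∈ V.map H.subtype := by
        rw [hg]
        exact Subgroup.mem_zpowers g
      obtain ⟨v, hv, hvg⟩ := Subgroup.mem_map.1 hgH
      refine ⟨v, ?_⟩
      apply Subgroup.map_injective (Subgroup.subtype_injective H)
      rw [hg, MonoidHom.map_zpowers, hvg]
    · right
      intro a u hu huN
      refine h a u ?_ huN
      rw [← map_cj]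
      exact ⟨u, hu, rfl⟩
  · intro ι _ f c hf hc
    refine h6 ι (fun i => (f i : G)) c (fun i j hij => hf i j hij) ?_
    intro n hn
    obtain ⟨y, hy, rfl⟩ := Subgroup.mem_map.1 (hN'N hn)
    exact hc y hn

theorem Nice.ind_mem (hG : Nice G 𝒰) {H : Subgroup G} [Fintype (G ⧸ H)]
    (hH : IsOpen (H : Set G)) {m : ℕ} {f : Subgroup H → ℤ} (hf : f ∈ P (res H 𝒰) m) :
    ind H f ∈ P 𝒰 (m * H.index) :=
  ind_mem_P hH hG.conj hf fun _ hK => (hG.sub hH).fin hK

/-- the form in which induction is used: `K ≤ H ≤ G` -/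
theorem Nice.ind_step (hG : Nice G 𝒰) {H K : Subgroup G} (hH : IsOpen (H : Set G))
    (hK : IsOpen (K : Set G)) (hKH : K ≤ H) {m : ℕ} {a : ℤ}
    (h : pc (K.subgroupOf H) - a • (1 : Subgroup H → ℤ) ∈ P (res H 𝒰) m) :
    pc K - a • pc H ∈ P 𝒰 (m * H.index) := by
  classical
  have := hG.fin hH
  have : Fintype (G ⧸ H) := Fintype.ofFinite _
  have := (hG.sub hH).fin (open_comap hK H)
  have h1 := hG.ind_mem hH h
  rw [map_sub, map_zsmul, ind_pc, ind_one, Subgroup.subgroupOf_map_subtype,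
    inf_eq_left.2 hKH] at h1
  exact h1

end Pool.Agent.H73.DU
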