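import Pool.Agent.H73.DU.Rel
import Pool.Agent.H73.DU.Nice

/-! # The cocycle attached to a homomorphism with independent conjugates

PLAN. Put `s0 g := θ ((g : G ⧸ N).out⁻¹ * g)` (the argument is in `N`: `QuotientGroup.out_eq'`,
`QuotientGroup.eq`). For `n ∈ N`: `s0 (g * n) = s0 g + θ n` (the coset, hence `out`, is the same).
`D0 g x := s0 (g⁻¹ * x.out) - s0 x.out`; for every representative `a` of `x` one has
`D0 g (a : G ⧸ N) = s0 (g⁻¹ * a) - s0 a` (write `a = out * n`), hence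
`D0 (g * h) x = D0 g x + D0 h (g⁻¹ • x)` for `g⁻¹ • x` (lift `x` to `a`).
For `M`, `ρ`, `j` put `z g m := ∑ x, j m x * D0 g x` (linear in `m`). Cocycle condition:
`∑ x, j m x * D0 h (g⁻¹ • x) = ∑ y, j m (g • y) * D0 h y` (reindex by `y = g⁻¹ • x`,
`MulAction.toPerm`) and `j (ρ g⁻¹ m) y = j m (g • y)`.
`N` acts trivially: for `n ∈ N` and all `x : G ⧸ N`, `n⁻¹ • x = x` (normality), so `j (ρ n m) =
j m` and `ρ n = 1` by injectivity.
For `n ∈ N`, `D0 n (a : G ⧸ N) = s0 (n⁻¹ * a) - s0 a = s0 (a * (a⁻¹ * n⁻¹ * a)) - s0 a =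
θ (a⁻¹ * n⁻¹ * a) = - θ (a⁻¹ * n * a)`.
Surjectivity: `V := {z n | n ∈ N}` is an additive subgroup of `Dual M` (on `N` the cocycle is a
homomorphism because `ρ = 1` there), hence a `ZMod p`-submodule (`AddSubgroup.toZModSubmodule` or
by hand). If `V ≠ ⊤` then there is `m ≠ 0` in `M` with `f m = 0` for all `f ∈ V` (finite dimension:
`Submodule.exists_dual_map_eq_bot_of_lt_top`-type lemmas or
`Subspace.dualAnnihilator_dualCoannihilator_eq`, `Module.evalEquiv`); then
`∑ x, j m x * θ (x.out⁻¹ * n * x.out) = 0` for all `n ∈ N`, so `j m = 0` by `hind` with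
`ι = G ⧸ N`, `f = Quotient.out`, and `m = 0`: contradiction.
Openness (`CData.Good.op`): `U.normalCore` is open (`Nice.core`), contained in `N`, and for `u` in
it all `a⁻¹ * u * a` are in `U`, so `D0 u = 0`, `z u = 0` and `ρ u = 1`. -/

namespace Pool.Agent.H73.DU

variable {p : ℕ} [Fact p.Prime] {G : Type} [Group G] [TopologicalSpace G] [IsTopologicalGroup G]

section aux



/-- the section of `θ` -/
private noncomputable def s0 (N : Subgroup G) (θ : G → ZMod p) (g : G) : ZMod p :=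
  θ ((QuotientGroup.mk g : G ⧸ N).out⁻¹ * g)

/-- the differences -/
private noncomputable def D00 (N : Subgroup G) (θ : G → ZMod p) (g : G) (x : G ⧸ N) : ZMod p :=
  s0 N θ (g⁻¹ * x.out) - s0 N θ x.out

private theorem out_mem (N : Subgroup G) (a : G) : (QuotientGroup.mk a : G ⧸ N).out⁻¹ * a ∈ N :=
  QuotientGroup.eq.1 (QuotientGroup.out_eq' _)

private theorem s0_mul {N : Subgroup G} {θ : G → ZMod p}
    (hθ : ∀ a ∈ N, ∀ b ∈ N, θ (a * b) = θ a + θ b) (g : G) {n : G} (hn : n ∈ N) :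
    s0 N θ (g * n) = s0 N θ g + θ n := by
  unfold s0
  rw [QuotientGroup.mk_mul_of_mem g hn, ← mul_assoc]
  exact hθ _ (out_mem N g) _ hn

private theorem D00_mk {N : Subgroup G} {θ : G → ZMod p}
    (hθ : ∀ a ∈ N, ∀ b ∈ N, θ (a * b) = θ a + θ b) (g a : G) :
    D00 N θ g (QuotientGroup.mk a) = s0 N θ (g⁻¹ * a) - s0 N θ a := by
  unfold D00
  have h1 := out_mem N a
  generalize (QuotientGroup.mk a : G ⧸ N).out = b at *
  have h2 : a = b * (b⁻¹ * a) := by group
  have h3 : g⁻¹ * a = g⁻¹ * b * (b⁻¹ * a) := by group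
  rw [h3, s0_mul hθ _ h1]
  conv_rhs => rw [h2, s0_mul hθ _ h1]
  have h4 : b * (b⁻¹ * a) = a := by group
  rw [h4]
  ring

private theorem D00_mul {N : Subgroup G} {θ : G → ZMod p}
    (hθ : ∀ a ∈ N, ∀ b ∈ N, θ (a * b) = θ a + θ b) (g h : G) (x : G ⧸ N) :
    D00 N θ (g * h) x = D00 N θ g x + D00 N θ h (g⁻¹ • x) := by
  obtain ⟨a, rfl⟩ := QuotientGroup.mk_surjective x
  have h1 : g⁻¹ • (QuotientGroup.mk a : G ⧸ N) = QuotientGroup.mk (g⁻¹ * a) := rfl
  rw [h1, D00_mk hθ, D00_mk hθ, D00_mk hθ, mul_inv_rev, mul_assoc]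
  ring

private theorem th_one {N : Subgroup G} {θ : G → ZMod p}
    (hθ : ∀ a ∈ N, ∀ b ∈ N, θ (a * b) = θ a + θ b) : θ 1 = 0 := by
  have h := hθ 1 N.one_mem 1 N.one_mem
  rw [mul_one] at h
  exact left_eq_add.1 h

private theorem th_inv {N : Subgroup G} {θ : G → ZMod p}
    (hθ : ∀ a ∈ N, ∀ b ∈ N, θ (a * b) = θ a + θ b) {a : G} (ha : a ∈ N) : θ a⁻¹ = -θ a := by
  have h := hθ a ha a⁻¹ (N.inv_mem ha)
  rw [mul_inv_cancel, th_one hθ] at h
  exact (neg_eq_of_add_eq_zero_right h.symm).symm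

private theorem D00_N {N : Subgroup G} [N.Normal] {θ : G → ZMod p}
    (hθ : ∀ a ∈ N, ∀ b ∈ N, θ (a * b) = θ a + θ b) {n : G} (hn : n ∈ N) (a : G) :
    D00 N θ n (QuotientGroup.mk a) = -θ (a⁻¹ * n * a) := by
  have h1 : a⁻¹ * n * a ∈ N := by
    have := (inferInstance : N.Normal).conj_mem n hn a⁻¹
    rwa [inv_inv] at this
  have h2 : n⁻¹ * a = a * (a⁻¹ * n * a)⁻¹ := by group
  rw [D00_mk hθ, h2, s0_mul hθ _ (N.inv_mem h1), th_inv hθ h1]
  ring

private theorem smul_N {N : Subgroup G} [N.Normal] {n : G} (hn : n ∈ N) (x : G ⧸ N) :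
    n • x = x := by
  obtain ⟨a, rfl⟩ := QuotientGroup.mk_surjective x
  have h1 : n • (QuotientGroup.mk a : G ⧸ N) = QuotientGroup.mk (n * a) := rfl
  rw [h1, QuotientGroup.eq]
  have h2 : (n * a)⁻¹ * a = a⁻¹ * n⁻¹ * a⁻¹⁻¹ := by group
  rw [h2]
  exact (inferInstance : N.Normal).conj_mem n⁻¹ (N.inv_mem hn) a⁻¹

private theorem D00_triv {N : Subgroup G} {θ : G → ZMod p}
    (hθ : ∀ a ∈ N, ∀ b ∈ N, θ (a * b) = θ a + θ b) {U : Subgroup G}
    (hU : ∀ a : G, ∀ u ∈ cj a U, u ∈ N → θ u = 0) :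
    ∃ c : G ⧸ N → ZMod p, ∀ u ∈ U, ∀ x, D00 N θ u x = c (u⁻¹ • x) - c x := by
  classical
  let rep : G ⧸ N → G ⧸ N := fun x =>
    (Quotient.mk'' x : MulAction.orbitRel.Quotient U (G ⧸ N)).out
  have hrep : ∀ x, ∃ u ∈ U, u • rep x = x := by
    intro x
    have h1 : (Quotient.mk'' (rep x) : MulAction.orbitRel.Quotient U (G ⧸ N)) =
        Quotient.mk'' x := Quotient.out_eq' _
    rw [Quotient.eq''] at h1
    have h2 : x ∈ MulAction.orbit U (rep x) := by
      have h3 : rep x ∈ MulAction.orbit U x := h1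
      exact MulAction.mem_orbit_symm.1 h3
    obtain ⟨u, hu⟩ := h2
    exact ⟨u.1, u.2, hu⟩
  have hrep2 : ∀ u ∈ U, ∀ x, rep (u • x) = rep x := by
    intro u hu x
    have h1 : (Quotient.mk'' (u • x) : MulAction.orbitRel.Quotient U (G ⧸ N)) =
        Quotient.mk'' x := by
      rw [Quotient.eq'']
      exact ⟨⟨u, hu⟩, rfl⟩
    change (Quotient.mk'' (u • x) : MulAction.orbitRel.Quotient U (G ⧸ N)).out = _
    rw [h1]
  choose v hvU hv using hrep
  refine ⟨fun x => s0 N θ (v x * (rep x).out) - s0 N θ (rep x).out, ?_⟩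
  -- independence of the choice
  have key : ∀ u ∈ U, ∀ x, u • rep x = x →
      s0 N θ (u * (rep x).out) = s0 N θ (v x * (rep x).out) := by
    intro u hu x hx
    set a := (rep x).out with ha
    have hax : (QuotientGroup.mk a : G ⧸ N) = rep x := QuotientGroup.out_eq' _
    have h1 : (QuotientGroup.mk (v x * a) : G ⧸ N) = QuotientGroup.mk (u * a) := by
      change v x • (QuotientGroup.mk a : G ⧸ N) = u • (QuotientGroup.mk a : G ⧸ N)
      rw [hax, hv, hx]
    rw [QuotientGroup.eq] at h1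
    have h2 : (v x * a)⁻¹ * (u * a) = a⁻¹ * ((v x)⁻¹ * u) * a := by group
    have h3 : θ ((v x * a)⁻¹ * (u * a)) = 0 := by
      refine hU a _ ?_ h1
      rw [h2]
      exact mem_cj (U.mul_mem (U.inv_mem (hvU x)) hu)
    have h4 : u * a = (v x * a) * ((v x * a)⁻¹ * (u * a)) := by group
    rw [h4, s0_mul hθ _ h1, h3, add_zero]
  intro u hu x
  have h1 : (QuotientGroup.mk (v x * (rep x).out) : G ⧸ N) = x := by
    change v x • (QuotientGroup.mk (rep x).out : G ⧸ N) = x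
    rw [QuotientGroup.out_eq', hv]
  have h2 := D00_mk hθ u (v x * (rep x).out)
  rw [h1] at h2
  have h3 := hrep2 u⁻¹ (U.inv_mem hu) x
  have h4 := key (u⁻¹ * v x) (U.mul_mem (U.inv_mem hu) (hvU x)) (u⁻¹ • x) (by
    rw [h3, mul_smul, hv])
  rw [h3] at h4
  simp only [h3]
  rw [h2, ← h4, mul_assoc]
  ring

end aux

theorem exists_cdata {𝒰 : Set (Subgroup G)} (hG : Nice G 𝒰) {N : Subgroup G} (hN : IsOpen (N : Set G)) [N.Normal]
    [Fintype (G ⧸ N)] {θ : G → ZMod p} (hθ : ∀ a ∈ N, ∀ b ∈ N, θ (a * b) = θ a + θ b)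
    (hU : ∃ U : Subgroup G, IsOpen (U : Set G) ∧ U ≤ N ∧ ∀ u ∈ U, θ u = 0)
    (hind : ∀ (ι : Type) [Fintype ι] (f : ι → G) (c : ι → ZMod p),
      (∀ i j, (f i)⁻¹ * f j ∈ N → i = j) →
      (∀ n ∈ N, ∑ i, c i * θ ((f i)⁻¹ * n * f i) = 0) → c = 0) :
    ∃ D0 : G → (G ⧸ N) → ZMod p,
      ∀ (M : Type) [AddCommGroup M] [Module (ZMod p) M] [Finite M]
        (ρ : Representation (ZMod p) G M) (j : M →ₗ[ZMod p] (G ⧸ N → ZMod p)),
        Function.Injective j → (∀ g m x, j (ρ g m) x = j m (g⁻¹ • x)) →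
        ∃ D : CData p G M, D.ρ = ρ ∧ D.Good ∧ (∀ g m, D.z g m = ∑ x, j m x * D0 g x) ∧
          (∀ U : Subgroup G, (∀ a : G, ∀ u ∈ cj a U, u ∈ N → θ u = 0) → D.Triv U) ∧
          ∀ f : Module.Dual (ZMod p) M, ∃ n ∈ N, D.z n = f := by
  classical
  refine ⟨D00 N θ, ?_⟩
  intro M _ _ _ ρ j hj hρ
  have hFD : FiniteDimensional (ZMod p) M := Module.Finite.of_finite
  let D : CData p G M :=
    { ρ := ρ
      z := fun g =>
        { toFun := fun m => ∑ x, j m x * D00 N θ g x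
          map_add' := fun m m' => by
            rw [← Finset.sum_add_distrib]
            exact Finset.sum_congr rfl fun x _ => by rw [map_add, Pi.add_apply, add_mul]
          map_smul' := fun c m => by
            rw [RingHom.id_apply, smul_eq_mul, Finset.mul_sum]
            exact Finset.sum_congr rfl fun x _ => by
              rw [map_smul, Pi.smul_apply, smul_eq_mul, mul_assoc] }
      coc := fun g h m => by
        change ∑ x, j m x * D00 N θ (g * h) x = ∑ x, j m x * D00 N θ g x +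
          ∑ x, j (ρ g⁻¹ m) x * D00 N θ h x
        have h1 : ∑ x, j (ρ g⁻¹ m) x * D00 N θ h x = ∑ x, j m x * D00 N θ h (g⁻¹ • x) := by
          rw [← Equiv.sum_comp (MulAction.toPerm g) (fun x => j m x * D00 N θ h (g⁻¹ • x))]
          refine Finset.sum_congr rfl fun x _ => ?_
          rw [hρ, inv_inv, MulAction.toPerm_apply, inv_smul_smul]
        rw [h1, ← Finset.sum_add_distrib]
        exact Finset.sum_congr rfl fun x _ => by rw [D00_mul hθ, mul_add] }
  have hz : ∀ g m, D.z g m = ∑ x, j m x * D00 N θ g x := fun g m => rfl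
  have hρN : ∀ n ∈ N, D.ρ n = 1 := by
    intro n hn
    ext m
    apply hj
    funext x
    change j (ρ n m) x = j m x
    rw [hρ, smul_N (N.inv_mem hn)]
  have hzN : ∀ n ∈ N, ∀ m, D.z n m = -∑ x, j m x * θ (x.out⁻¹ * n * x.out) := by
    intro n hn m
    rw [hz, ← Finset.sum_neg_distrib]
    refine Finset.sum_congr rfl fun x _ => ?_
    have h1 := D00_N hθ hn x.out
    rw [QuotientGroup.out_eq'] at h1
    rw [h1, mul_neg]
  have hzmul : ∀ n ∈ N, ∀ n', D.z (n * n') = D.z n + D.z n' := by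
    intro n hn n'
    ext m
    rw [D.coc, hρN _ (N.inv_mem hn)]
    rfl
  let V : Submodule (ZMod p) (Module.Dual (ZMod p) M) :=
    AddSubgroup.toZModSubmodule p
      { carrier := {f | ∃ n ∈ N, D.z n = f}
        add_mem' := by
          rintro _ _ ⟨n, hn, rfl⟩ ⟨n', hn', rfl⟩
          exact ⟨n * n', N.mul_mem hn hn', hzmul n hn n'⟩
        zero_mem' := ⟨1, N.one_mem, by ext m; exact D.z_one m⟩
        neg_mem' := by
          rintro _ ⟨n, hn, rfl⟩
          refine ⟨n⁻¹, N.inv_mem hn, ?_⟩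
          have h1 := hzmul n hn n⁻¹
          rw [mul_inv_cancel] at h1
          have h2 : D.z 1 = 0 := by ext m; exact D.z_one m
          rw [h2] at h1
          exact (neg_eq_of_add_eq_zero_right h1.symm).symm }
  have hV : ∀ f, f ∈ V ↔ ∃ n ∈ N, D.z n = f := fun f => Iff.rfl
  have hsurj : ∀ f : Module.Dual (ZMod p) M, ∃ n ∈ N, D.z n = f := by
    intro f
    rw [← hV]
    by_contra hf
    rw [← Subspace.dualCoannihilator_dualAnnihilator_eq (W := V),
      Submodule.mem_dualAnnihilator] at hf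
    push Not at hf
    obtain ⟨m, hm, hfm⟩ := hf
    rw [Submodule.mem_dualCoannihilator] at hm
    apply hfm
    have h1 : j m = 0 := by
      refine hind (G ⧸ N) Quotient.out (j m) ?_ ?_
      · intro a b hab
        have h2 := QuotientGroup.eq.2 hab
        rwa [QuotientGroup.out_eq', QuotientGroup.out_eq'] at h2
      · intro n hn
        have h2 := hm (D.z n) ((hV _).2 ⟨n, hn, rfl⟩)
        rw [hzN n hn] at h2
        exact neg_eq_zero.1 h2
    have h2 : m = 0 := hj (by rw [h1, map_zero])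
    rw [h2, map_zero]
  refine ⟨D, rfl, ⟨?_, ?_⟩, hz, ?_, hsurj⟩
  · obtain ⟨U, hUo, hUN, hUθ⟩ := hU
    refine ⟨U.normalCore, hG.core hUo, ?_⟩
    intro u hu
    have huN : u ∈ N := hUN (Subgroup.normalCore_le _ hu)
    refine ⟨hρN u huN, ?_⟩
    ext m
    rw [hzN u huN, LinearMap.zero_apply, neg_eq_zero]
    refine Finset.sum_eq_zero fun x _ => ?_
    have h1 : x.out⁻¹ * u * x.out ∈ U := by
      apply Subgroup.normalCore_le U
      have := (Subgroup.normalCore_normal U).conj_mem u hu x.out⁻¹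
      rwa [inv_inv] at this
    rw [hUθ _ h1, mul_zero]
  · intro f
    obtain ⟨n, hn, hnf⟩ := hsurj f
    exact ⟨n, hρN n hn, hnf⟩
  · intro U hUθ
    obtain ⟨c, hc⟩ := D00_triv hθ hUθ
    let t0 : Module.Dual (ZMod p) M :=
      { toFun := fun m => ∑ x, j m x * c x
        map_add' := fun m m' => by
          rw [← Finset.sum_add_distrib]
          exact Finset.sum_congr rfl fun x _ => by rw [map_add, Pi.add_apply, add_mul]
        map_smul' := fun a m => by
          rw [RingHom.id_apply, smul_eq_mul, Finset.mul_sum]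
          exact Finset.sum_congr rfl fun x _ => by
            rw [map_smul, Pi.smul_apply, smul_eq_mul, mul_assoc] }
    refine ⟨t0, fun u hu m => ?_⟩
    rw [hz]
    change _ = ∑ x, j (ρ u⁻¹ m) x * c x - ∑ x, j m x * c x
    have h1 : ∑ x, j (ρ u⁻¹ m) x * c x = ∑ x, j m x * c (u⁻¹ • x) := by
      rw [← Equiv.sum_comp (MulAction.toPerm u) (fun x => j m x * c (u⁻¹ • x))]
      refine Finset.sum_congr rfl fun x _ => ?_
      rw [hρ, inv_inv, MulAction.toPerm_apply, inv_smul_smul]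
    rw [h1, ← Finset.sum_sub_distrib]
    exact Finset.sum_congr rfl fun x _ => by rw [hc u hu, mul_sub]

end Pool.Agent.H73.DU
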