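import Pool.Agent.H73.DU.PolyPrime

/-! # A prime with trivial decomposition group

PLAN. Choose `θ : 𝓞 L` with `ℚ⟮(θ : L)⟯ = ⊤` (primitive element, multiplied by an integer; or use
`NumberField.exists_...`/`Field.exists_primitive_element`). Then `γ θ ≠ θ` for `γ ≠ 1`.
`f := ∏ γ, (X - C (γ θ))` or simply `f = minpoly ℤ θ` (monic of positive degree, if
`Module.finrank ℚ L = 1` everything is vacuous: take any nonzero prime).
`δ := ∏_{γ ≠ 1} (γ θ - θ)`; `D := Algebra.norm ℤ δ ≠ 0` (an integer; `δ ≠ 0`). It satisfies: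
if a prime ideal contains `γ θ - θ` for some `γ ≠ 1`, then it contains `δ` and hence `D`
(`Ideal` contains the norm of each of its elements: `Ideal.norm_mem`-type lemma, or use for `D` a
nonzero integer multiple of `δ`, which exists by integrality).
By `exists_prime_dvd_eval` there are a prime `l ∤ D` and `a : ℤ` with `l ∣ f.eval a`.
In `𝓞 L`, `f.eval a = ∏ (a - roots)`: with `f = minpoly ℤ θ` use instead: some prime
ideal `𝔏` contains `l` and `θ - a`: otherwise the ideal `(l, θ - a)` is `⊤`: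
`l x + (θ - a) y = 1`; then norms give `N((θ - a) y) ≡ 1` modulo `l`, i.e. `N(θ - a) N(y)` is
prime to `l`, but `N(θ - a) = ± f(a)` (`f` of degree `n = [L : ℚ]`:
`Algebra.norm_eq_...`/`charpoly`, `PowerBasis`), contradiction. Alternative avoiding norms:
`ℤ[X]/(f) ≅ ℤ[θ] ⊆ 𝓞 L` is integral, the map `ℤ[X]/(f) → 𝔽_l`, `X ↦ a` is well defined because
`l ∣ f(a)`, its kernel is a prime ideal of `ℤ[θ]` which lifts to `𝓞 L` by going up
(`Ideal.exists_ideal_over_prime_of_isIntegral`); use `Algebra.adjoin ℤ {θ}` and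
`minpoly.equivAdjoin`-type equivalences (`ℤ` is integrally closed).
Then for `γ ≠ 1` take `x = θ - a ∈ 𝔏`, `y = γ θ - a`: if `y ∈ 𝔏` then `γ θ - θ ∈ 𝔏`, so `δ ∈ 𝔏`,
`D ∈ 𝔏`, and `l ∈ 𝔏`, `gcd(l, D) = 1` give `1 ∈ 𝔏`, contradiction. `𝔏 ≠ ⊥` since `l ∈ 𝔏`. -/

namespace Pool.Agent.H73.DU

open NumberField

/-- an integral element moved by every nontrivial automorphism -/
private theorem exists_theta (L : Type) [Field L] [NumberField L] :
    ∃ θ : 𝓞 L, ∀ γ : L ≃ₐ[ℚ] L, γ (θ : L) = θ → γ = 1 := by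
  obtain ⟨α, hα⟩ := Field.exists_primitive_element ℚ L
  have halg : IsAlgebraic ℤ α :=
    (IsFractionRing.isAlgebraic_iff ℤ ℚ L).2 (Algebra.IsAlgebraic.isAlgebraic α)
  obtain ⟨n, hn, hint⟩ := halg.exists_integral_multiple
  refine ⟨⟨n • α, hint⟩, fun γ hγ => ?_⟩
  have h1 : γ (n • α) = n • α := hγ
  have h2 : γ α = α := by
    rw [map_zsmul] at h1
    exact smul_right_injective L hn h1
  have h3 : ∀ x ∈ IntermediateField.adjoin ℚ ({α} : Set L), γ x = x := by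
    intro x hx
    induction hx using IntermediateField.adjoin_induction with
    | mem x hx => rw [Set.mem_singleton_iff.1 hx, h2]
    | algebraMap x => exact γ.commutes x
    | add x y _ _ hx hy => rw [map_add, hx, hy]
    | inv x _ hx => rw [map_inv₀, hx]
    | mul x y _ _ hx hy => rw [map_mul, hx, hy]
  ext x
  exact h3 x (by rw [hα]; trivial)

/-- a prime ideal above `(l, θ - a)` if `l` divides the value of the minimal polynomial at `a` -/
private theorem exists_above {S : Type} [CommRing S] [IsDomain S] [CharZero S] [Algebra.IsIntegral ℤ S]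
    (θ : S) (l : ℕ) (hl : l.Prime) (a : ℤ) (h : (l : ℤ) ∣ (minpoly ℤ θ).eval a) :
    ∃ Q : Ideal S, Q.IsPrime ∧ (l : S) ∈ Q ∧ θ - (a : S) ∈ Q := by
  have : Fact l.Prime := ⟨hl⟩
  have hint : IsIntegral ℤ θ := Algebra.IsIntegral.isIntegral θ
  have h0 : (minpoly ℤ θ).eval₂ (Int.castRingHom (ZMod l)) (a : ZMod l) = 0 := by
    have h1 : (minpoly ℤ θ).eval₂ (Int.castRingHom (ZMod l)) (Int.castRingHom (ZMod l) a) =
        Int.castRingHom (ZMod l) ((minpoly ℤ θ).eval a) := Polynomial.eval₂_at_apply _ _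
    have h2 : ((Int.castRingHom (ZMod l)) ((minpoly ℤ θ).eval a)) = 0 := by
      rw [eq_intCast, ZMod.intCast_zmod_eq_zero_iff_dvd]
      exact h
    rw [h2] at h1
    exact h1
  let φ : Algebra.adjoin ℤ ({θ} : Set S) →+* ZMod l :=
    (AdjoinRoot.lift (Int.castRingHom (ZMod l)) (a : ZMod l) h0).comp
      ((minpoly.equivAdjoin hint).symm : Algebra.adjoin ℤ ({θ} : Set S) →+* AdjoinRoot (minpoly ℤ θ))
  have hφθ : φ ⟨θ, Algebra.self_mem_adjoin_singleton ℤ θ⟩ = (a : ZMod l) := by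
    have h4 : (minpoly.equivAdjoin hint).symm ⟨θ, Algebra.self_mem_adjoin_singleton ℤ θ⟩ =
        AdjoinRoot.root (minpoly ℤ θ) := by
      rw [AlgEquiv.symm_apply_eq, minpoly.coe_equivAdjoin]
      apply Subtype.ext
      simp [AdjoinRoot.Minpoly.toAdjoin]
    change AdjoinRoot.lift (Int.castRingHom (ZMod l)) (a : ZMod l) h0
      ((minpoly.equivAdjoin hint).symm ⟨θ, Algebra.self_mem_adjoin_singleton ℤ θ⟩) = _
    rw [h4, AdjoinRoot.lift_root]
  have : Algebra.IsIntegral (Algebra.adjoin ℤ ({θ} : Set S)) S := Algebra.IsIntegral.tower_top ℤ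
  have hker : (RingHom.ker φ).IsPrime := RingHom.ker_isPrime φ
  obtain ⟨Q, -, hQ, hQc⟩ := Ideal.exists_ideal_over_prime_of_isIntegral (RingHom.ker φ)
    (⊥ : Ideal S) (by
      intro x hx
      rw [Ideal.mem_comap, Ideal.mem_bot] at hx
      have h5 : x = 0 := Subtype.ext hx
      rw [h5]
      exact Ideal.zero_mem _)
  refine ⟨Q, hQ, ?_, ?_⟩
  · have h3 : (l : Algebra.adjoin ℤ ({θ} : Set S)) ∈ RingHom.ker φ := by
      rw [RingHom.mem_ker, map_natCast, CharP.cast_eq_zero]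
    rw [← hQc, Ideal.mem_comap, map_natCast] at h3
    exact h3
  · have h3 : (⟨θ, Algebra.self_mem_adjoin_singleton ℤ θ⟩ - (a : Algebra.adjoin ℤ ({θ} : Set S))) ∈
        RingHom.ker φ := by
      rw [RingHom.mem_ker, map_sub, hφθ, map_intCast, sub_self]
    rw [← hQc, Ideal.mem_comap, map_sub, map_intCast] at h3
    exact h3

theorem exists_split (L : Type) [Field L] [NumberField L] [IsGalois ℚ L] (m : ℤ) (hm : m ≠ 0) :
    ∃ (Q : Ideal (𝓞 L)) (l : ℕ), Q.IsPrime ∧ Q ≠ ⊥ ∧ l.Prime ∧ (l : 𝓞 L) ∈ Q ∧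
      ¬ (l : ℤ) ∣ m ∧ ∀ γ : L ≃ₐ[ℚ] L, γ ≠ 1 →
      ∃ x y : 𝓞 L, x ∈ Q ∧ (y : L) = γ (x : L) ∧ y ∉ Q := by
  classical
  obtain ⟨θ, hθ⟩ := exists_theta L
  have hy : ∀ γ : L ≃ₐ[ℚ] L, ∃ y : 𝓞 L, (y : L) = γ (θ : L) := by
    intro γ
    exact ⟨⟨γ (θ : L), (RingOfIntegers.isIntegral_coe θ).map (γ.toAlgHom.restrictScalars ℤ)⟩, rfl⟩
  choose y hy using hy
  let δ : 𝓞 L := ∏ γ ∈ Finset.univ.filter (fun γ : L ≃ₐ[ℚ] L => γ ≠ 1), (y γ - θ)
  have hδ : δ ≠ 0 := by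
    refine Finset.prod_ne_zero_iff.2 fun γ hγ h0 => (Finset.mem_filter.1 hγ).2 (hθ γ ?_)
    rw [← hy γ, sub_eq_zero.1 h0]
  have hD : ∃ D : ℤ, D ≠ 0 ∧ (D : 𝓞 L) ∈ Ideal.span {δ} := by
    refine ⟨(Ideal.absNorm (Ideal.span {δ}) : ℤ), ?_, ?_⟩
    · rw [Int.natCast_ne_zero, Ne, Ideal.absNorm_eq_zero_iff, Ideal.span_singleton_eq_bot]
      exact hδ
    · rw [Int.cast_natCast]
      exact Ideal.absNorm_mem _
  obtain ⟨D, hD0, hDm⟩ := hD
  obtain ⟨l, a, hl, hla, hlDm⟩ := exists_prime_dvd_eval (minpoly ℤ θ)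
    (minpoly.natDegree_pos (Algebra.IsIntegral.isIntegral θ)) (D * m) (mul_ne_zero hD0 hm)
  have hlD : ¬ (l : ℤ) ∣ D := fun h => hlDm (Dvd.dvd.mul_right h m)
  have hlm : ¬ (l : ℤ) ∣ m := fun h => hlDm (Dvd.dvd.mul_left h D)
  obtain ⟨Q, hQ, hlQ, haQ⟩ := exists_above θ l hl a hla
  refine ⟨Q, l, hQ, ?_, hl, hlQ, hlm, ?_⟩
  · rintro rfl
    rw [Ideal.mem_bot] at hlQ
    exact hl.ne_zero (by exact_mod_cast hlQ)
  · intro γ hγ
    refine ⟨θ - a, y γ - a, haQ, ?_, ?_⟩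
    · change algebraMap (𝓞 L) L (y γ - a) = γ (algebraMap (𝓞 L) L (θ - a))
      rw [map_sub, map_sub, map_sub, map_intCast, map_intCast]
      exact congrArg (· - (a : L)) (hy γ)
    · intro hyQ
      have h1 : y γ - θ ∈ Q := by
        have := Q.sub_mem hyQ haQ
        rwa [sub_sub_sub_cancel_right] at this
      have h2 : δ ∈ Q := Ideal.mem_of_dvd _ (Finset.dvd_prod_of_mem _
        (Finset.mem_filter.2 ⟨Finset.mem_univ γ, hγ⟩)) h1
      have h3 : (D : 𝓞 L) ∈ Q := (Ideal.span_singleton_le_iff_mem Q).2 h2 hDm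
      have hcop : IsCoprime (l : ℤ) D :=
        (Nat.prime_iff_prime_int.1 hl).irreducible.coprime_iff_not_dvd.2 hlD
      obtain ⟨u, v, huv⟩ := hcop
      apply hQ.ne_top
      rw [Ideal.eq_top_iff_one]
      have h4 : (u : 𝓞 L) * (l : 𝓞 L) + (v : 𝓞 L) * (D : 𝓞 L) = 1 := by exact_mod_cast congrArg (Int.cast : ℤ → 𝓞 L) huv
      rw [← h4]
      exact Q.add_mem (Q.mul_mem_left _ hlQ) (Q.mul_mem_left _ h3)

end Pool.Agent.H73.DU
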