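import Mathlib

/-! # Marks of finite `G`-sets modulo those of degree divisible by `m`: basics -/

namespace Pool.Agent.H73.DU

open MulAction

section basic

variable {G : Type} [Group G]

/-- the points fixed by a subgroup -/
def fx (X : Type) [MulAction G X] (U : Subgroup G) : Set X := {x | ∀ u ∈ U, u • x = x}

theorem mem_fx {X : Type} [MulAction G X] {U : Subgroup G} {x : X} :
    x ∈ fx X U ↔ ∀ u ∈ U, u • x = x := Iff.rfl

/-- marks of a `G`-set: the numbers of points fixed by the subgroups of `G` -/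
noncomputable def pch (G : Type) [Group G] (X : Type) [MulAction G X] : Subgroup G → ℤ :=
  fun U => (Nat.card (fx X U) : ℤ)

/-- marks of `G ⧸ H` -/
noncomputable def pc (H : Subgroup G) : Subgroup G → ℤ := pch G (G ⧸ H)

theorem fx_bot (X : Type) [MulAction G X] : fx X (⊥ : Subgroup G) = Set.univ := by
  ext x
  simp [mem_fx]

theorem fx_zpowers {X : Type} [MulAction G X] {g : G} {x : X} :
    x ∈ fx X (Subgroup.zpowers g) ↔ g • x = x := by
  constructor
  · intro h
    exact h g (Subgroup.mem_zpowers g)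
  · intro h u hu
    have : Subgroup.zpowers g ≤ stabilizer G x := by
      rw [Subgroup.zpowers_le]
      exact h
    exact this hu

theorem pch_bot (X : Type) [MulAction G X] : pch G X ⊥ = Nat.card X := by
  unfold pch
  rw [fx_bot, Nat.card_coe_set_eq, Set.ncard_univ]

theorem pc_bot (H : Subgroup G) : pc H ⊥ = H.index := by
  unfold pc
  rw [pch_bot]
  rfl

theorem pch_congr {X Y : Type} [MulAction G X] [MulAction G Y] (e : X ≃ Y)
    (he : ∀ (g : G) (x : X), e (g • x) = g • e x) : pch G X = pch G Y := by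
  funext U
  unfold pch
  congr 1
  refine Nat.card_congr (e.subtypeEquiv fun x => ?_)
  change (∀ u ∈ U, u • x = x) ↔ (∀ u ∈ U, u • e x = e x)
  refine forall₂_congr fun u _ => ?_
  rw [← he, e.apply_eq_iff_eq]

open Classical in
theorem pc_normal (H : Subgroup G) [hn : H.Normal] (U : Subgroup G) :
    pc H U = if U ≤ H then (H.index : ℤ) else 0 := by
  unfold pc pch
  split_ifs with h
  · have : fx (G ⧸ H) U = Set.univ := by
      ext x
      induction x using QuotientGroup.induction_on with
      | H a =>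
        simp only [mem_fx, Set.mem_univ, iff_true]
        intro g hg
        change ((g * a : G) : G ⧸ H) = a
        rw [QuotientGroup.eq]
        have := hn.conj_mem g⁻¹ (H.inv_mem (h hg)) a⁻¹
        simpa [mul_assoc] using this
    rw [this, Nat.card_coe_set_eq, Set.ncard_univ]
    rfl
  · have : fx (G ⧸ H) U = ∅ := by
      ext x
      induction x using QuotientGroup.induction_on with
      | H a =>
        simp only [mem_fx, Set.mem_empty_iff_false, iff_false]
        intro hx
        apply h
        intro g hg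
        have hx := hx g hg
        change ((g * a : G) : G ⧸ H) = a at hx
        rw [QuotientGroup.eq] at hx
        have := hn.conj_mem _ hx a
        have h2 : a * ((g * a)⁻¹ * a) * a⁻¹ = g⁻¹ := by group
        rw [h2] at this
        simpa using H.inv_mem this
    rw [this]
    simp

theorem pc_top : pc (⊤ : Subgroup G) = 1 := by
  funext g
  rw [pc_normal]
  simp

theorem pc_conj (H : Subgroup G) (a : G) : pc (H.map (MulAut.conj a).toMonoidHom) = pc H := by
  symm
  unfold pc
  set H' := H.map (MulAut.conj a).toMonoidHom with hH'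
  have key : ∀ x y : G, (x * a⁻¹)⁻¹ * (y * a⁻¹) ∈ H' ↔ x⁻¹ * y ∈ H := by
    intro x y
    rw [hH', Subgroup.mem_map]
    constructor
    · rintro ⟨h, hh, hxy⟩
      have : h = x⁻¹ * y := by
        have h1 : a * h * a⁻¹ = (x * a⁻¹)⁻¹ * (y * a⁻¹) := by simpa using hxy
        have h2 : h = a⁻¹ * (a * h * a⁻¹) * a := by group
        rw [h2, h1]
        group
      rw [← this]
      exact hh
    · intro h
      refine ⟨_, h, ?_⟩
      simp [mul_assoc]
  refine pch_congr (Equiv.ofBijective (Quotient.map' (fun x => x * a⁻¹) ?_) ⟨?_, ?_⟩) ?_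
  · intro x y h
    rw [QuotientGroup.leftRel_apply] at h ⊢
    exact (key x y).2 h
  · intro x y
    induction x using QuotientGroup.induction_on with
    | H x =>
      induction y using QuotientGroup.induction_on with
      | H y =>
        intro h
        have h' : ((x * a⁻¹ : G) : G ⧸ H') = ((y * a⁻¹ : G) : G ⧸ H') := h
        rw [QuotientGroup.eq] at h' ⊢
        exact (key x y).1 h'
  · intro y
    induction y using QuotientGroup.induction_on with
    | H y =>
      refine ⟨((y * a : G) : G ⧸ H), ?_⟩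
      change (((y * a) * a⁻¹ : G) : G ⧸ H') = _
      simp
  · intro g x
    induction x using QuotientGroup.induction_on with
    | H x =>
      change (((g * x) * a⁻¹ : G) : G ⧸ H') = ((g * (x * a⁻¹) : G) : G ⧸ H')
      rw [mul_assoc]

/-- decomposition into orbits -/
theorem pch_eq_sum (X : Type) [MulAction G X] [Finite X] [Fintype (orbitRel.Quotient G X)] :
    pch G X = ∑ ω : orbitRel.Quotient G X, pc (stabilizer G ω.out) := by
  funext U
  rw [Finset.sum_apply]
  unfold pc pch
  let f : fx X U → orbitRel.Quotient G X := fun x => Quotient.mk'' x.1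
  rw [Nat.card_congr (Equiv.sigmaFiberEquiv f).symm]
  rw [Nat.card_sigma]
  push_cast
  refine Finset.sum_congr rfl fun ω _ => ?_
  congr 1
  have hout : (Quotient.mk'' ω.out : orbitRel.Quotient G X) = ω := Quotient.out_eq' ω
  have hsm : ∀ (g : G) (q : G ⧸ stabilizer G ω.out),
      ((orbitEquivQuotientStabilizer G ω.out).symm (g • q) : X) =
        g • ((orbitEquivQuotientStabilizer G ω.out).symm q : X) := by
    intro g q
    induction q using QuotientGroup.induction_on with
    | H a =>
      have h1 : g • ((a : G) : G ⧸ stabilizer G ω.out) = ((g * a : G) : G ⧸ stabilizer G ω.out) :=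
        rfl
      rw [h1, orbitEquivQuotientStabilizer_symm_apply, orbitEquivQuotientStabilizer_symm_apply,
        mul_smul]
  refine (Nat.card_congr (Equiv.ofBijective (fun q : fx (G ⧸ stabilizer G ω.out) U =>
    (⟨⟨((orbitEquivQuotientStabilizer G ω.out).symm q.1 : X), ?_⟩, ?_⟩ :
      {y : fx X U // f y = ω})) ⟨?_, ?_⟩)).symm
  · intro g hg
    rw [← hsm, q.2 g hg]
  · change (Quotient.mk'' _ : orbitRel.Quotient G X) = ω
    refine Eq.trans ?_ hout
    rw [Quotient.eq'']
    exact ((orbitEquivQuotientStabilizer G ω.out).symm q.1).2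
  · intro q q' h
    simp only [Subtype.mk.injEq] at h
    have := (orbitEquivQuotientStabilizer G ω.out).symm.injective (Subtype.ext h)
    exact Subtype.ext this
  · rintro ⟨⟨y, hy⟩, hyω⟩
    have hmem : y ∈ orbit G ω.out := by
      have h1 : (Quotient.mk'' y : orbitRel.Quotient G X) = Quotient.mk'' ω.out := by
        rw [hout]; exact hyω
      rw [Quotient.eq''] at h1
      exact h1
    refine ⟨⟨orbitEquivQuotientStabilizer G ω.out ⟨y, hmem⟩, ?_⟩, ?_⟩
    · intro g hg
      apply (orbitEquivQuotientStabilizer G ω.out).symm.injective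
      apply Subtype.ext
      rw [hsm, Equiv.symm_apply_apply]
      exact hy g hg
    · simp

theorem card_eq_sum (X : Type) [MulAction G X] [Finite X] [Fintype (orbitRel.Quotient G X)] :
    (Nat.card X : ℤ) = ∑ ω : orbitRel.Quotient G X, ((stabilizer G ω.out).index : ℤ) := by
  have h := congrFun (pch_eq_sum (G := G) X) ⊥
  rw [pch_bot, Finset.sum_apply] at h
  rw [h]
  exact Finset.sum_congr rfl fun ω _ => pc_bot _

/-- general membership via orbits -/
theorem mem_of_orbits' (X : Type) [MulAction G X] [Finite X] (Q : AddSubgroup (Subgroup G → ℤ))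
    (h : ∀ x : X, pc (stabilizer G x) ∈ Q) : pch G X ∈ Q := by
  classical
  have : Fintype (orbitRel.Quotient G X) := Fintype.ofFinite _
  rw [pch_eq_sum]
  exact AddSubgroup.sum_mem _ fun ω _ => h _

/-- the same, one exceptional fixed point -/
theorem mem_of_orbits_fix (X : Type) [MulAction G X] [Finite X]
    (Q : AddSubgroup (Subgroup G → ℤ)) (ξ : Subgroup G → ℤ) (x0 : X) (hx0 : ∀ g : G, g • x0 = x0)
    (h : ∀ x : X, x ≠ x0 → pc (stabilizer G x) - ((stabilizer G x).index : ℤ) • ξ ∈ Q) :
    (pch G X - (Nat.card X : ℤ) • ξ) - (1 - ξ) ∈ Q := by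
  classical
  have : Fintype (orbitRel.Quotient G X) := Fintype.ofFinite _
  rw [pch_eq_sum, card_eq_sum (G := G) X, Finset.sum_smul, ← Finset.sum_sub_distrib]
  set ω0 : orbitRel.Quotient G X := Quotient.mk'' x0 with hω0
  have hout : ω0.out = x0 := by
    have h1 : (Quotient.mk'' ω0.out : orbitRel.Quotient G X) = Quotient.mk'' x0 :=
      Quotient.out_eq' ω0
    rw [Quotient.eq''] at h1
    obtain ⟨g, hg⟩ := h1
    have hg' : g • x0 = ω0.out := hg
    rw [← hg', hx0]
  have hst : stabilizer G x0 = ⊤ := by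
    ext g
    simp [mem_stabilizer_iff, hx0]
  rw [← Finset.add_sum_erase Finset.univ _ (Finset.mem_univ ω0), hout, hst, pc_top,
    Subgroup.index_top, Nat.cast_one, one_smul, add_sub_cancel_left]
  refine AddSubgroup.sum_mem _ fun ω hω => h _ ?_
  intro h1
  apply (Finset.mem_erase.1 hω).1
  have h2 : (Quotient.mk'' ω.out : orbitRel.Quotient G X) = ω := Quotient.out_eq' ω
  rw [← h2, h1]

/-- splitting off an invariant part of a `G`-set -/
theorem pch_split_pred (X : Type) [MulAction G X] [Finite X] (F : X → Prop)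
    (hF : ∀ (g : G) x, F x → F (g • x)) (Q : AddSubgroup (Subgroup G → ℤ))
    (h : ∀ x, ¬ F x → pc (stabilizer G x) ∈ Q) :
    pch G X - (fun U => (Nat.card {x : X // F x ∧ x ∈ fx X U} : ℤ)) ∈ Q := by
  classical
  let B : SubMulAction G X :=
    { carrier := {x | ¬ F x}
      smul_mem' := by
        intro g x hx hgx
        apply hx
        have := hF g⁻¹ _ hgx
        rwa [inv_smul_smul] at this }
  have hst : ∀ b : B, stabilizer G b = stabilizer G (b : X) := by
    intro b
    ext g
    rw [mem_stabilizer_iff, mem_stabilizer_iff, Subtype.ext_iff]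
    rfl
  have hB : pch G B ∈ Q := mem_of_orbits' B Q fun b => by rw [hst]; exact h b.1 b.2
  have heq : pch G X - (fun U => (Nat.card {x : X // F x ∧ x ∈ fx X U} : ℤ)) = pch G B := by
    funext U
    rw [Pi.sub_apply, sub_eq_iff_eq_add]
    unfold pch
    rw [← Nat.cast_add, ← Nat.card_sum]
    congr 1
    have hfB : ∀ b : B, b ∈ fx B U ↔ (b : X) ∈ fx X U := by
      intro b
      rw [mem_fx, mem_fx]
      refine forall₂_congr fun u _ => ?_
      rw [Subtype.ext_iff]
      rfl
    refine Nat.card_congr ⟨fun x => if hx : F x.1 then Sum.inr ⟨x.1, hx, x.2⟩ else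
      Sum.inl ⟨⟨x.1, hx⟩, (hfB _).2 x.2⟩, fun y => Sum.elim (fun b => ⟨b.1.1, (hfB _).1 b.2⟩)
        (fun x => ⟨x.1, x.2.2⟩) y, ?_, ?_⟩
    · intro x
      by_cases hx : F x.1
      · simp [hx]
      · simp [hx]
    · rintro (b | x)
      · have : ¬ F b.1.1 := b.1.2
        simp [this]
      · have : F x.1 := x.2.1
        simp [this]
  rw [heq]
  exact hB

end basic

section top

variable {G : Type} [Group G] [TopologicalSpace G]

/-- combinations of the marks of degree divisible by `m`, modulo functions vanishing on `𝒰` -/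
def P (𝒰 : Set (Subgroup G)) (m : ℕ) : AddSubgroup (Subgroup G → ℤ) :=
  AddSubgroup.closure {f | (∃ H : Subgroup G, IsOpen (H : Set G) ∧ m ∣ H.index ∧ f = pc H) ∨
    ∀ U ∈ 𝒰, f U = 0}

variable {𝒰 : Set (Subgroup G)}

theorem pc_mem_P {m : ℕ} {H : Subgroup G} (hH : IsOpen (H : Set G)) (hm : m ∣ H.index) :
    pc H ∈ P 𝒰 m := AddSubgroup.subset_closure (Or.inl ⟨H, hH, hm, rfl⟩)

theorem zero_mem_P {m : ℕ} {f : Subgroup G → ℤ} (hf : ∀ U ∈ 𝒰, f U = 0) :
    f ∈ P 𝒰 m := AddSubgroup.subset_closure (Or.inr hf)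

/-- functions equal on `𝒰` -/
theorem P_congr {m : ℕ} {f g : Subgroup G → ℤ} (hf : ∀ U ∈ 𝒰, f U = g U) (hg : g ∈ P 𝒰 m) :
    f ∈ P 𝒰 m := by
  have : f = g + (f - g) := by abel
  rw [this]
  refine AddSubgroup.add_mem _ hg (zero_mem_P fun U hU => ?_)
  rw [Pi.sub_apply, hf U hU, sub_self]

theorem P_mono {m m' : ℕ} (h : m ∣ m') : P 𝒰 m' ≤ P 𝒰 m := by
  unfold P
  rw [AddSubgroup.closure_le]
  rintro f (⟨H, hH, hm, rfl⟩ | hf)
  · exact pc_mem_P hH (h.trans hm)
  · exact zero_mem_P hf

theorem pch_mem_P {m : ℕ} (X : Type) [MulAction G X] [Finite X]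
    (h : ∀ x : X, IsOpen (stabilizer G x : Set G) ∧ m ∣ (stabilizer G x).index) :
    pch G X ∈ P 𝒰 m :=
  mem_of_orbits' X _ fun x => pc_mem_P (h x).1 (h x).2

end top

end Pool.Agent.H73.DU
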