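import Pool.Agent.H73.DU.Chars
import Pool.Agent.H73.DU.Syl

/-! # Sylow subgroups: the trivial character modulo `P p` -/

namespace Pool.Agent.H73.DU

open MulAction

variable {p : ℕ} [Fact p.Prime]

/-- pch of the `W`-set modulo the orbits of nonzero vectors -/
theorem W_mem {G M : Type} [Group G] [AddCommGroup M] [Module (ZMod p) M] [Finite M]
    (D : CData p G M) (Q : AddSubgroup (Subgroup G → ℤ))
    (h : ∀ x : WSet D, x.m ≠ 0 → pc (stabilizer G x) ∈ Q) :
    pch G (WSet D) - (p : ℤ) • (1 : Subgroup G → ℤ) ∈ Q := by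
  have : NeZero p := ⟨(Fact.out : p.Prime).ne_zero⟩
  have h1 := pch_split_pred (G := G) (WSet D) (fun x => x.m = 0) (by
    intro g x hx
    rw [WSet.smul_def]
    change D.ρ g x.m = 0
    rw [hx, map_zero]) Q (fun x hx => h x hx)
  have h2 : (fun U : Subgroup G => (Nat.card {x : WSet D // x.m = 0 ∧ x ∈ fx (WSet D) U} : ℤ)) =
      (p : ℤ) • (1 : Subgroup G → ℤ) := by
    funext U
    have e : {x : WSet D // x.m = 0 ∧ x ∈ fx (WSet D) U} ≃ ZMod p :=
      ⟨fun x => x.1.c, fun c => ⟨⟨0, c⟩, rfl, by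
        intro g _
        rw [WSet.smul_def]
        ext
        · change D.ρ g (0 : M) = 0
          rw [map_zero]
        · change c + D.z g (D.ρ g (0 : M)) = c
          rw [map_zero, map_zero, add_zero]⟩,
        fun x => by
          apply Subtype.ext
          exact WSet.ext x.2.1.symm rfl,
        fun c => rfl⟩
    rw [Nat.card_congr e, Nat.card_zmod]
    simp
  rwa [h2] at h1

/-- the sum-zero functions on `G / S` -/
def SZ (p : ℕ) {G : Type} [Group G] (S : Subgroup G) [Fintype (G ⧸ S)] :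
    Submodule (ZMod p) (G ⧸ S → ZMod p) where
  carrier := {f | ∑ x, f x = 0}
  add_mem' := by
    intro a b ha hb
    simp only [Set.mem_ofPred_eq, Pi.add_apply] at *
    rw [Finset.sum_add_distrib, ha, hb, add_zero]
  zero_mem' := by simp
  smul_mem' := by
    intro c a ha
    simp only [Set.mem_ofPred_eq, Pi.smul_apply] at *
    rw [← Finset.smul_sum, ha, smul_zero]

theorem mem_SZ {G : Type} [Group G] {S : Subgroup G} [Fintype (G ⧸ S)]
    {f : G ⧸ S → ZMod p} : f ∈ SZ p S ↔ ∑ x, f x = 0 := Iff.rfl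

/-- the representation on the sum-zero functions -/
noncomputable def szRep {G : Type} [Group G] (S : Subgroup G) [Fintype (G ⧸ S)] :
    Representation (ZMod p) G (SZ p S) where
  toFun g :=
    { toFun := fun f => ⟨fun x => f.1 (g⁻¹ • x), by
        rw [mem_SZ]
        rw [← mem_SZ.1 f.2]
        exact Fintype.sum_equiv (MulAction.toPerm g⁻¹) _ _ fun x => rfl⟩
      map_add' := fun a b => rfl
      map_smul' := fun c a => rfl }
  map_one' := by
    ext f x
    change f.1 ((1 : G)⁻¹ • x) = f.1 x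
    rw [inv_one, one_smul]
  map_mul' g h := by
    ext f x
    change f.1 ((g * h)⁻¹ • x) = f.1 (h⁻¹ • g⁻¹ • x)
    rw [mul_inv_rev, mul_smul]

theorem szRep_apply {G : Type} [Group G] (S : Subgroup G) [Fintype (G ⧸ S)] (g : G)
    (f : SZ p S) (x : G ⧸ S) : (szRep S g f : G ⧸ S → ZMod p) x = f.1 (g⁻¹ • x) := rfl

/-- pull back along `G / N → G / S` -/
noncomputable def pull {G : Type} [Group G] {N S : Subgroup G} (h : N ≤ S) [Fintype (G ⧸ S)] :
    SZ p S →ₗ[ZMod p] (G ⧸ N → ZMod p) where
  toFun f := fun x => f.1 (Quotient.map' id (by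
    intro a b hab
    rw [QuotientGroup.leftRel_apply] at hab ⊢
    exact h hab) x : G ⧸ S)
  map_add' a b := rfl
  map_smul' c a := rfl

theorem pull_apply {G : Type} [Group G] {N S : Subgroup G} (h : N ≤ S) [Fintype (G ⧸ S)]
    (f : SZ p S) (a : G) : pull h f (a : G ⧸ N) = f.1 (a : G ⧸ S) := rfl

theorem pull_inj {G : Type} [Group G] {N S : Subgroup G} (h : N ≤ S) [Fintype (G ⧸ S)] :
    Function.Injective (pull (p := p) h) := by
  intro f f' hff
  apply Subtype.ext
  funext x
  induction x using QuotientGroup.induction_on with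
  | H a =>
    have := congrFun hff (a : G ⧸ N)
    rwa [pull_apply, pull_apply] at this

theorem pull_equi {G : Type} [Group G] {N S : Subgroup G} (h : N ≤ S) [Fintype (G ⧸ S)]
    (g : G) (f : SZ p S) (x : G ⧸ N) : pull h (szRep S g f) x = pull h f (g⁻¹ • x) := by
  induction x using QuotientGroup.induction_on with
  | H a =>
    rw [pull_apply, szRep_apply]
    change _ = pull h f ((g⁻¹ * a : G) : G ⧸ N)
    rw [pull_apply]
    rfl

/-- no nonzero fixed vectors -/
theorem sz_fixed {G : Type} [Group G] {S : Subgroup G} [Fintype (G ⧸ S)] (hS : ¬ p ∣ S.index)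
    (f : SZ p S) (hf : ∀ g : G, szRep S g f = f) : f = 0 := by
  have h1 : ∀ x : G ⧸ S, f.1 x = f.1 ((1 : G) : G ⧸ S) := by
    intro x
    induction x using QuotientGroup.induction_on with
    | H a =>
      have := congrArg (fun f : SZ p S => f.1 (a : G ⧸ S)) (hf a)
      simp only [szRep_apply] at this
      have h3 : a⁻¹ • (a : G ⧸ S) = ((1 : G) : G ⧸ S) := by
        change ((a⁻¹ * a : G) : G ⧸ S) = _
        rw [inv_mul_cancel]
      rw [← this, h3]
  have h2 := mem_SZ.1 f.2
  rw [Finset.sum_congr rfl fun x _ => h1 x, Finset.sum_const, Finset.card_univ,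
    nsmul_eq_mul] at h2
  have h3 : ((Fintype.card (G ⧸ S) : ℕ) : ZMod p) ≠ 0 := by
    rw [Ne, ZMod.natCast_eq_zero_iff]
    rwa [Subgroup.index_eq_card, Nat.card_eq_fintype_card] at hS
  have h4 := (mul_eq_zero.1 h2).resolve_left h3
  apply Subtype.ext
  funext x
  rw [h1 x, h4]
  rfl

theorem sz_ne {G : Type} [Group G] {S : Subgroup G} [Fintype (G ⧸ S)] (hS : S ≠ ⊤) :
    ∃ f : SZ p S, f ≠ 0 := by
  classical
  have : Fact p.Prime := ‹_›
  obtain ⟨a, ha⟩ : ∃ a : G, a ∉ S := by
    by_contra h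
    push Not at h
    exact hS (Subgroup.eq_top_iff' S |>.2 h)
  have hne : ((a : G) : G ⧸ S) ≠ ((1 : G) : G ⧸ S) := by
    intro h
    rw [eq_comm, QuotientGroup.eq] at h
    apply ha
    simpa using h
  refine ⟨⟨Pi.single ((a : G) : G ⧸ S) 1 - Pi.single ((1 : G) : G ⧸ S) 1, ?_⟩, ?_⟩
  · rw [mem_SZ]
    simp [Finset.sum_sub_distrib]
  · intro h
    have h1 := congrArg (fun f : SZ p S => f.1 ((a : G) : G ⧸ S)) h
    simp [hne] at h1

/-- the sum-zero functions are self-dual -/
theorem sz_selfDual {G : Type} [Group G] {S : Subgroup G} [Fintype (G ⧸ S)]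
    (hS : ¬ p ∣ S.index) : SelfDual (szRep (p := p) S) := by
  classical
  have : NeZero p := ⟨(Fact.out : p.Prime).ne_zero⟩
  have : FiniteDimensional (ZMod p) (SZ p S) := Module.Finite.of_finite
  let B : SZ p S →ₗ[ZMod p] Module.Dual (ZMod p) (SZ p S) :=
    { toFun := fun f =>
        { toFun := fun f' => ∑ x, f.1 x * f'.1 x
          map_add' := fun a b => by
            rw [← Finset.sum_add_distrib]
            exact Finset.sum_congr rfl fun x _ => mul_add _ _ _
          map_smul' := fun c a => by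
            rw [RingHom.id_apply, smul_eq_mul, Finset.mul_sum]
            exact Finset.sum_congr rfl fun x _ => mul_left_comm _ _ _ }
      map_add' := fun a b => by
        ext f'
        change ∑ x, (a.1 x + b.1 x) * f'.1 x = ∑ x, a.1 x * f'.1 x + ∑ x, b.1 x * f'.1 x
        rw [← Finset.sum_add_distrib]
        exact Finset.sum_congr rfl fun x _ => add_mul _ _ _
      map_smul' := fun c a => by
        ext f'
        change ∑ x, (c * a.1 x) * f'.1 x = c * ∑ x, a.1 x * f'.1 x
        rw [Finset.mul_sum]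
        exact Finset.sum_congr rfl fun x _ => mul_assoc _ _ _ }
  have hB : ∀ f f' : SZ p S, B f f' = ∑ x, f.1 x * f'.1 x := fun _ _ => rfl
  have hinj : Function.Injective B := by
    rw [injective_iff_map_eq_zero]
    intro f hf
    have h1 : ∀ x y : G ⧸ S, f.1 x = f.1 y := by
      intro x y
      by_cases hxy : x = y
      · rw [hxy]
      let f' : SZ p S := ⟨Pi.single x 1 - Pi.single y 1, by
        rw [mem_SZ]
        simp [Finset.sum_sub_distrib]⟩
      have h2 : B f f' = 0 := by rw [hf]; rfl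
      rw [hB] at h2
      have h3 : ∑ z, f.1 z * f'.1 z = f.1 x - f.1 y := by
        have h4 : ∀ z, f.1 z * f'.1 z = f.1 z * (Pi.single x 1 : G ⧸ S → ZMod p) z -
            f.1 z * (Pi.single y 1 : G ⧸ S → ZMod p) z := fun z => mul_sub _ _ _
        rw [Finset.sum_congr rfl fun z _ => h4 z, Finset.sum_sub_distrib]
        simp [Pi.single_apply]
      rw [h3] at h2
      exact sub_eq_zero.1 h2
    have h2 := mem_SZ.1 f.2
    rw [Finset.sum_congr rfl fun x _ => h1 x ((1 : G) : G ⧸ S), Finset.sum_const,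
      Finset.card_univ, nsmul_eq_mul] at h2
    have h3 : ((Fintype.card (G ⧸ S) : ℕ) : ZMod p) ≠ 0 := by
      rw [Ne, ZMod.natCast_eq_zero_iff]
      rwa [Subgroup.index_eq_card, Nat.card_eq_fintype_card] at hS
    have h4 := (mul_eq_zero.1 h2).resolve_left h3
    apply Subtype.ext
    funext x
    rw [h1 x ((1 : G) : G ⧸ S), h4]
    rfl
  refine ⟨LinearMap.linearEquivOfInjective B hinj (Subspace.dual_finrank_eq).symm, ?_⟩
  intro g f f'
  change B (szRep S g f) f' = B f (szRep S g⁻¹ f')
  rw [hB, hB, ← Equiv.sum_comp (MulAction.toPerm g)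
    (fun x => (szRep S g f).1 x * f'.1 x)]
  refine Finset.sum_congr rfl fun x _ => ?_
  rw [MulAction.toPerm_apply, szRep_apply, szRep_apply, inv_smul_smul, inv_inv]

/-- divisibility and membership -/
theorem mem_of_coprime {I : Type} {Q : AddSubgroup (I → ℤ)} {f : I → ℤ} {a b : ℕ}
    (hab : Nat.Coprime a b) (ha : (a : ℤ) • f ∈ Q) (hb : (b : ℤ) • f ∈ Q) : f ∈ Q := by
  have h := Nat.gcd_eq_gcd_ab a b
  rw [Nat.Coprime] at hab
  rw [hab] at h
  have h2 : f = (a.gcdA b) • ((a : ℤ) • f) + (a.gcdB b) • ((b : ℤ) • f) := by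
    rw [smul_smul, smul_smul, ← add_smul]
    have : (Nat.gcdA a b) * (a : ℤ) + Nat.gcdB a b * (b : ℤ) = 1 := by
      rw [mul_comm (Nat.gcdA a b), mul_comm (Nat.gcdB a b)]
      exact_mod_cast h.symm
    rw [this, one_smul]
  rw [h2]
  exact Q.add_mem (Q.zsmul_mem ha _) (Q.zsmul_mem hb _)

end Pool.Agent.H73.DU
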