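import Pool.Agent.H73.DU.CMain

/-! # Normal subgroups of index `p`: `pc J ≡ p` modulo `P (p ^ 2)` -/

namespace Pool.Agent.H73.DU

open MulAction

variable {p : ℕ} [Fact p.Prime]

/-- the unipotent representation attached to a character -/
noncomputable def uRep {G : Type} [Group G] (l : G →* Multiplicative (ZMod p)) :
    Representation (ZMod p) G (ZMod p × ZMod p) where
  toFun g :=
    { toFun := fun m => (m.1 - m.2 * Multiplicative.toAdd (l g), m.2)
      map_add' := by
        intro a b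
        ext
        · simp only [Prod.fst_add, Prod.snd_add]
          ring
        · rfl
      map_smul' := by
        intro c a
        ext
        · simp only [Prod.smul_fst, Prod.smul_snd, smul_eq_mul, RingHom.id_apply]
          ring
        · rfl }
  map_one' := by
    refine LinearMap.ext fun m => ?_
    change ((m.1 - m.2 * Multiplicative.toAdd (l 1), m.2) : ZMod p × ZMod p) = m
    rw [map_one, toAdd_one, mul_zero, sub_zero]
  map_mul' g h := by
    refine LinearMap.ext fun m => ?_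
    change ((m.1 - m.2 * Multiplicative.toAdd (l (g * h)), m.2) : ZMod p × ZMod p) =
      ((m.1 - m.2 * Multiplicative.toAdd (l h)) - m.2 * Multiplicative.toAdd (l g), m.2)
    rw [map_mul, toAdd_mul]
    ext
    · change m.1 - m.2 * (_ + _) = (m.1 - m.2 * _) - m.2 * _
      ring
    · rfl

theorem uRep_apply {G : Type} [Group G] (l : G →* Multiplicative (ZMod p)) (g : G)
    (m : ZMod p × ZMod p) : uRep l g m = (m.1 - m.2 * Multiplicative.toAdd (l g), m.2) := rfl

/-- the embedding -/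
noncomputable def uEmb {G : Type} [Group G] (l : G →* Multiplicative (ZMod p)) {N : Subgroup G}
    [N.Normal] (h : N ≤ l.ker) : (ZMod p × ZMod p) →ₗ[ZMod p] (G ⧸ N → ZMod p) where
  toFun m x := m.1 + m.2 * Multiplicative.toAdd (QuotientGroup.lift N l h x)
  map_add' a b := by
    funext x
    simp only [Prod.fst_add, Prod.snd_add, Pi.add_apply]
    ring
  map_smul' c a := by
    funext x
    simp only [Prod.smul_fst, Prod.smul_snd, smul_eq_mul, RingHom.id_apply, Pi.smul_apply]
    ring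

theorem uEmb_apply {G : Type} [Group G] (l : G →* Multiplicative (ZMod p)) {N : Subgroup G}
    [N.Normal] (h : N ≤ l.ker) (m : ZMod p × ZMod p) (a : G) :
    uEmb l h m (a : G ⧸ N) = m.1 + m.2 * Multiplicative.toAdd (l a) := rfl

theorem uEmb_inj {G : Type} [Group G] (l : G →* Multiplicative (ZMod p)) {N : Subgroup G}
    [N.Normal] (h : N ≤ l.ker) (hl : ∃ g, l g ≠ 1) : Function.Injective (uEmb l h) := by
  rw [injective_iff_map_eq_zero]
  intro m hm
  obtain ⟨g, hg⟩ := hl
  have h1 := congrFun hm ((1 : G) : G ⧸ N)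
  rw [uEmb_apply, map_one, toAdd_one, mul_zero, add_zero] at h1
  have h1' : m.1 = 0 := h1
  have h2 := congrFun hm (g : G ⧸ N)
  rw [uEmb_apply, h1', zero_add] at h2
  have h3 : Multiplicative.toAdd (l g) ≠ 0 := by
    intro h
    exact hg (Multiplicative.toAdd.injective h)
  exact Prod.ext h1' ((mul_eq_zero.1 h2).resolve_right h3)

theorem uEmb_equi {G : Type} [Group G] (l : G →* Multiplicative (ZMod p)) {N : Subgroup G}
    [N.Normal] (h : N ≤ l.ker) (g : G) (m : ZMod p × ZMod p) (x : G ⧸ N) :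
    uEmb l h (uRep l g m) x = uEmb l h m (g⁻¹ • x) := by
  induction x using QuotientGroup.induction_on with
  | H a =>
    have : g⁻¹ • (a : G ⧸ N) = ((g⁻¹ * a : G) : G ⧸ N) := rfl
    rw [this, uEmb_apply, uEmb_apply, uRep_apply, map_mul, map_inv, toAdd_mul, toAdd_inv]
    ring

theorem uRep_selfDual {G : Type} [Group G] (l : G →* Multiplicative (ZMod p)) :
    SelfDual (uRep l) := by
  let B : (ZMod p × ZMod p) →ₗ[ZMod p] Module.Dual (ZMod p) (ZMod p × ZMod p) :=
    { toFun := fun f =>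
        { toFun := fun f' => f.1 * f'.2 - f.2 * f'.1
          map_add' := fun a b => by
            simp only [Prod.fst_add, Prod.snd_add]
            ring
          map_smul' := fun c a => by
            simp only [Prod.smul_fst, Prod.smul_snd, smul_eq_mul, RingHom.id_apply]
            ring }
      map_add' := fun a b => by
        refine LinearMap.ext fun f' => ?_
        change (a.1 + b.1) * f'.2 - (a.2 + b.2) * f'.1 =
          (a.1 * f'.2 - a.2 * f'.1) + (b.1 * f'.2 - b.2 * f'.1)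
        ring
      map_smul' := fun c a => by
        refine LinearMap.ext fun f' => ?_
        change (c * a.1) * f'.2 - (c * a.2) * f'.1 = c * (a.1 * f'.2 - a.2 * f'.1)
        ring }
  have hB : ∀ f f' : ZMod p × ZMod p, B f f' = f.1 * f'.2 - f.2 * f'.1 := fun _ _ => rfl
  have hinj : Function.Injective B := by
    rw [injective_iff_map_eq_zero]
    intro f hf
    have h1 : B f (0, 1) = 0 := by rw [hf]; rfl
    have h2 : B f (1, 0) = 0 := by rw [hf]; rfl
    rw [hB] at h1 h2
    refine Prod.ext ?_ ?_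
    · simpa using h1
    · simpa using h2
  refine ⟨LinearMap.linearEquivOfInjective B hinj (Subspace.dual_finrank_eq).symm, ?_⟩
  intro g f f'
  change B (uRep l g f) f' = B f (uRep l g⁻¹ f')
  rw [hB, hB, uRep_apply, uRep_apply, map_inv, toAdd_inv]
  ring

/-- counting the pairs with `a * t = 0` for all `t` in a family -/
theorem card_mul_zero {G : Type} [Group G] (U : Subgroup G) (t : G → ZMod p) (Q : Prop)
    [Decidable Q] (hQ : Q ↔ ∀ u ∈ U, t u = 0) :
    (Nat.card {x : ZMod p × ZMod p // ∀ u ∈ U, x.1 * t u = 0} : ℤ) =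
      p + (p - 1) * (if Q then (p : ℤ) else 0) := by
  classical
  split_ifs with h
  · have e : {x : ZMod p × ZMod p // ∀ u ∈ U, x.1 * t u = 0} ≃ ZMod p × ZMod p :=
      Equiv.subtypeUnivEquiv fun x u hu => by rw [hQ.1 h u hu, mul_zero]
    rw [Nat.card_congr e, Nat.card_prod, Nat.card_zmod]
    push_cast
    ring
  · rw [hQ] at h
    push Not at h
    obtain ⟨u0, hu0, hu0t⟩ := h
    have e : {x : ZMod p × ZMod p // ∀ u ∈ U, x.1 * t u = 0} ≃ ZMod p :=
      ⟨fun x => x.1.2, fun c => ⟨(0, c), fun _ _ => zero_mul _⟩, fun x => by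
        apply Subtype.ext
        exact Prod.ext ((mul_eq_zero.1 (x.2 u0 hu0)).resolve_right hu0t).symm rfl, fun _ => rfl⟩
    rw [Nat.card_congr e, Nat.card_zmod]
    ring

theorem D1 {G : Type} [Group G] [TopologicalSpace G] [IsTopologicalGroup G]
    {𝒰 : Set (Subgroup G)} (hG : Nice G 𝒰)
    {N : Subgroup G} (hN : IsOpen (N : Set G)) [N.Normal]
    {θ : G → ZMod p} (hθ : ∀ a ∈ N, ∀ b ∈ N, θ (a * b) = θ a + θ b)
    (hU : ∃ U : Subgroup G, IsOpen (U : Set G) ∧ U ≤ N ∧ ∀ u ∈ U, θ u = 0)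
    (h𝒰 : ∀ U ∈ 𝒰, Cyc U ∨ ∀ a : G, ∀ u ∈ cj a U, u ∈ N → θ u = 0)
    (hind : ∀ (ι : Type) [Fintype ι] (f : ι → G) (c : ι → ZMod p),
      (∀ i j, (f i)⁻¹ * f j ∈ N → i = j) →
      (∀ n ∈ N, ∑ i, c i * θ ((f i)⁻¹ * n * f i) = 0) → c = 0) :
    ∃ K : Subgroup G, ∀ l : G →* Multiplicative (ZMod p), (∃ g, l g ≠ 1) → N ≤ l.ker →
      pc l.ker - pc K ∈ P 𝒰 (p ^ 2) := by
  classical
  have := hG.fin hN
  haveI : Fintype (G ⧸ N) := Fintype.ofFinite _
  obtain ⟨D0, hD0⟩ := exists_cdata hG hN hθ hU hind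
  -- the trivial module
  let j0 : ZMod p →ₗ[ZMod p] (G ⧸ N → ZMod p) :=
    { toFun := fun m _ => m
      map_add' := fun _ _ => rfl
      map_smul' := fun _ _ => rfl }
  obtain ⟨D, hρ, hgood, hz, -, hsurj⟩ := hD0 (ZMod p) 1 j0 (fun a b hab =>
    congrFun hab ((1 : G) : G ⧸ N)) (fun g m x => rfl)
  have hadd : ∀ g h, D.z (g * h) 1 = D.z g 1 + D.z h 1 := by
    intro g h
    rw [D.coc, hρ]
    rfl
  let ν : G →* Multiplicative (ZMod p) :=
    { toFun := fun g => Multiplicative.ofAdd (D.z g 1)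
      map_one' := by rw [D.z_one]; rfl
      map_mul' := fun g h => by rw [hadd]; rfl }
  have hν : ∀ g, g ∈ ν.ker ↔ D.z g 1 = 0 := fun g => Iff.rfl
  have hνne : ∃ g, ν g ≠ 1 := by
    obtain ⟨n, -, hn⟩ := hsurj LinearMap.id
    refine ⟨n, fun h => ?_⟩
    have h1 : D.z n 1 = 0 := h
    rw [hn] at h1
    exact one_ne_zero h1
  have hνo : IsOpen (ν.ker : Set G) := by
    obtain ⟨U, hUo, hU'⟩ := hgood.op
    refine Subgroup.isOpen_mono ?_ hUo
    intro u hu
    rw [hν, (hU' u hu).2]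
    rfl
  have hνi : ν.ker.index = p := ker_index ν hνne
  have hp2 : ∀ l : G →* Multiplicative (ZMod p), (∃ g, l g ≠ 1) → IsOpen (l.ker : Set G) →
      (p : ℤ) • pc l.ker ∈ P 𝒰 (p ^ 2) := by
    intro l hl hlo
    have := smul_pc_mem hG hlo p
    rwa [ker_index l hl, ← sq] at this
  refine ⟨ν.ker, ?_⟩
  intro l hl hNl
  have hlo : IsOpen (l.ker : Set G) := Subgroup.isOpen_mono hNl hN
  obtain ⟨E, hEρ, hEgood, hEz, hEtr, -⟩ := hD0 (ZMod p × ZMod p) (uRep l) (uEmb l hNl)
    (uEmb_inj l hNl hl) (fun g m x => uEmb_equi l hNl g m x)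
  have hEν : ∀ g (a : ZMod p), E.z g (a, 0) = a * D.z g 1 := by
    intro g a
    rw [hEz, hz, Finset.mul_sum]
    refine Finset.sum_congr rfl fun x _ => ?_
    have h1 : uEmb l hNl (a, 0) x = a := by
      induction x using QuotientGroup.induction_on with
      | H b =>
        rw [uEmb_apply]
        change a + 0 * _ = a
        ring
    have h2 : j0 1 x = 1 := rfl
    rw [h1, h2, one_mul]
  have hM : pch G (MSet E) = (p : ℤ) • (1 : Subgroup G → ℤ) + ((p : ℤ) - 1) • pc l.ker := by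
    funext U
    have h1 : pch G (MSet E) U =
        (Nat.card {x : ZMod p × ZMod p //
          ∀ u ∈ U, x.1 * (fun g => Multiplicative.toAdd (l g)) u = 0} : ℤ) := by
      unfold pch
      congr 1
      refine Nat.card_congr ⟨fun x => ⟨(x.1.m.2, x.1.m.1), ?_⟩, fun x => ⟨⟨(x.1.2, x.1.1)⟩, ?_⟩,
        fun _ => rfl, fun _ => rfl⟩
      · intro u hu
        have h2 := x.2 u hu
        rw [MSet.smul_def, hEρ] at h2
        have h3 := congrArg (fun y : MSet E => y.m.1) h2
        change x.1.m.1 - x.1.m.2 * _ = x.1.m.1 at h3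
        exact sub_eq_self.1 h3
      · intro u hu
        rw [MSet.smul_def, hEρ]
        apply MSet.ext
        refine Prod.ext ?_ rfl
        change x.1.2 - x.1.1 * _ = x.1.2
        have h4 : x.1.1 * Multiplicative.toAdd (l u) = 0 := x.2 u hu
        rw [h4, sub_zero]
    rw [h1, card_mul_zero U (fun g => Multiplicative.toAdd (l g)) (U ≤ l.ker) Iff.rfl]
    simp only [Pi.add_apply, Pi.smul_apply, Pi.one_apply, smul_eq_mul, mul_one]
    rw [pc_normal, ker_index l hl]
  have hW : pch G (WSet E) - ((p : ℤ) • (1 : Subgroup G → ℤ) + ((p : ℤ) - 1) • pc ν.ker) ∈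
      P 𝒰 (p ^ 2) := by
    have h1 := pch_split_pred (G := G) (WSet E) (fun x => x.m.2 = 0) (by
      intro g x hx
      rw [WSet.smul_def, hEρ]
      exact hx) (P 𝒰 (p ^ 2)) (by
      intro x hx
      have hx0 : x.m ≠ 0 := by
        intro h
        apply hx
        rw [h]
        rfl
      refine pc_mem_P (W_stab hEgood x hx0).1 ?_
      rw [(W_stab hEgood x hx0).2]
      have h2 : stabilizer G (⟨x.m⟩ : MSet E) = l.ker := by
        ext g
        rw [mem_stabilizer_iff, MSet.smul_def, hEρ]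
        constructor
        · intro h
          have h3 := congrArg (fun y : MSet E => y.m.1) h
          change x.m.1 - x.m.2 * _ = x.m.1 at h3
          exact (mul_eq_zero.1 (sub_eq_self.1 h3)).resolve_left hx
        · intro h
          have h' : Multiplicative.toAdd (l g) = 0 := h
          apply MSet.ext
          refine Prod.ext ?_ rfl
          change x.m.1 - x.m.2 * _ = x.m.1
          rw [h', mul_zero, sub_zero]
      rw [h2, ker_index l hl, sq])
    have h2 : (fun U : Subgroup G =>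
        (Nat.card {x : WSet E // x.m.2 = 0 ∧ x ∈ fx (WSet E) U} : ℤ)) =
        (p : ℤ) • (1 : Subgroup G → ℤ) + ((p : ℤ) - 1) • pc ν.ker := by
      funext U
      have e : {x : WSet E // x.m.2 = 0 ∧ x ∈ fx (WSet E) U} ≃
          {x : ZMod p × ZMod p // ∀ u ∈ U, x.1 * (fun g => D.z g 1) u = 0} :=
        ⟨fun x => ⟨(x.1.m.1, x.1.c), by
            intro u hu
            have hx := x.2.2 u hu
            have h0 : x.1.m = (x.1.m.1, 0) := Prod.ext rfl x.2.1
            rw [WSet.smul_def, hEρ, uRep_apply, x.2.1, zero_mul, sub_zero] at hx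
            have h3 := congrArg WSet.c hx
            change x.1.c + E.z u (x.1.m.1, 0) = x.1.c at h3
            rw [hEν] at h3
            exact add_eq_left.1 h3⟩,
          fun x => ⟨⟨(x.1.1, 0), x.1.2⟩, rfl, by
            intro u hu
            rw [WSet.smul_def, hEρ, uRep_apply]
            change (⟨(x.1.1 - 0 * _, 0), x.1.2 + E.z u (x.1.1 - 0 * _, 0)⟩ : WSet E) = _
            have h4 : x.1.1 * D.z u 1 = 0 := x.2 u hu
            rw [zero_mul, sub_zero, hEν, h4, add_zero]⟩,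
          fun x => by
            apply Subtype.ext
            refine WSet.ext (Prod.ext rfl x.2.1.symm) rfl,
          fun x => rfl⟩
      rw [Nat.card_congr e, card_mul_zero U (fun g => D.z g 1) (U ≤ ν.ker) Iff.rfl]
      simp only [Pi.add_apply, Pi.smul_apply, Pi.one_apply, smul_eq_mul, mul_one]
      rw [pc_normal, hνi]
    rwa [h2] at h1
  have hT : pch G (TSet E) ∈ P 𝒰 (p ^ 2) :=
    pch_mem_P _ fun x => ⟨(T_stab hEgood x).1, by
      rw [(T_stab hEgood x).2, Nat.card_prod, Nat.card_zmod, sq]⟩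
  have h1 := relation_fam E (by rw [hEρ]; exact uRep_selfDual l) (𝒰 := 𝒰) (fun U hU' =>
    (h𝒰 U hU').imp_right (hEtr U))
  rw [hM] at h1
  have h2 : ∀ U ∈ 𝒰, (pc l.ker - pc ν.ker) U = (((p : ℤ) • pc l.ker - (p : ℤ) • pc ν.ker) -
      ((pch G (WSet E) - ((p : ℤ) • (1 : Subgroup G → ℤ) + ((p : ℤ) - 1) • pc ν.ker)) -
        ((p : ℤ) - 1) • pch G (TSet E))) U := by
    intro U hU'
    have := h1 U hU'
    simp only [Pi.add_apply, Pi.sub_apply, Pi.smul_apply, Pi.one_apply, smul_eq_mul] at this ⊢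
    rw [this]
    ring
  refine P_congr h2 ?_
  exact AddSubgroup.sub_mem _ (AddSubgroup.sub_mem _ (hp2 l hl hlo) (hp2 ν hνne hνo))
    (AddSubgroup.sub_mem _ hW (AddSubgroup.zsmul_mem _ hT _))

/-- characters -/
theorem ker_mem {G : Type} [Group G] [TopologicalSpace G] [IsTopologicalGroup G]
    {𝒰 : Set (Subgroup G)} (hG : Nice G 𝒰)
    (l : G →* Multiplicative (ZMod p)) (hl : ∃ g, l g ≠ 1) (hlo : IsOpen (l.ker : Set G)) :
    pc l.ker - (p : ℤ) • (1 : Subgroup G → ℤ) ∈ P 𝒰 (p ^ 2) := by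
  classical
  obtain ⟨l2, hl2o, ⟨n, hn, hn2⟩, hl2U⟩ := exists_char p hG hlo
  obtain ⟨N, θ, e1, e2, e3, e4, e5, e5', e6⟩ := hG.emb p Fact.out (l.ker ⊓ l2.ker)
    (by rw [Subgroup.coe_inf]; exact hlo.inter hl2o) inferInstance
  haveI := e1
  obtain ⟨K, hK⟩ := D1 hG e2 e4 e5 e5' e6
  have h1 := relA l l2 hl ⟨n, hn, hn2⟩
  have h2 := hK l hl (e3.trans inf_le_left)
  have h3 : ∀ c : ZMod p, pc ((l2 * l ^ c.val).ker) - pc K ∈ P 𝒰 (p ^ 2) := by
    intro c
    refine hK _ ⟨n, ?_⟩ ?_
    · rw [MonoidHom.mul_apply, MonoidHom.pow_apply, MonoidHom.mem_ker.1 hn, one_pow, mul_one]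
      exact hn2
    · intro u hu
      have hu' := e3 hu
      rw [MonoidHom.mem_ker, MonoidHom.mul_apply, MonoidHom.pow_apply,
        MonoidHom.mem_ker.1 hu'.1, MonoidHom.mem_ker.1 hu'.2, one_pow, mul_one]
  have h4 : (∑ c : ZMod p, pc ((l2 * l ^ c.val).ker)) - (p : ℤ) • pc K ∈ P 𝒰 (p ^ 2) := by
    have : (p : ℤ) • pc K = ∑ c : ZMod p, pc K := by
      rw [Finset.sum_const, Finset.card_univ, ZMod.card, natCast_zsmul]
    rw [this, ← Finset.sum_sub_distrib]
    exact AddSubgroup.sum_mem _ fun c _ => h3 c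
  have h5 : pc (l.ker ⊓ l2.ker) ∈ P 𝒰 (p ^ 2) :=
    pc_mem_P (by rw [Subgroup.coe_inf]; exact hlo.inter hl2o)
      (by rw [inf_index l l2 hl ⟨n, hn, hn2⟩])
  have h6 : (p : ℤ) • pc l.ker ∈ P 𝒰 (p ^ 2) := by
    have := smul_pc_mem hG hlo p
    rwa [ker_index l hl, ← sq] at this
  have h7 : ∀ U ∈ 𝒰, (pc l.ker - (p : ℤ) • (1 : Subgroup G → ℤ)) U =
      (pc (l.ker ⊓ l2.ker) - ((∑ c : ZMod p, pc ((l2 * l ^ c.val).ker)) - (p : ℤ) • pc K) +
        (p : ℤ) • (pc l.ker - pc K) - (p : ℤ) • pc l.ker) U := by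
    intro U hU
    have h8 := h1 U (hl2U U hU)
    simp only [Pi.add_apply, Pi.sub_apply, Pi.smul_apply, Pi.one_apply, smul_eq_mul] at h8 ⊢
    linarith
  refine P_congr h7 ?_
  exact AddSubgroup.sub_mem _ (AddSubgroup.add_mem _ (AddSubgroup.sub_mem _ h5 h4)
    (AddSubgroup.zsmul_mem _ h2 _)) h6

/-- normal subgroups of index `p` -/
theorem normal_mem {G : Type} [Group G] [TopologicalSpace G] [IsTopologicalGroup G]
    {𝒰 : Set (Subgroup G)} (hG : Nice G 𝒰) {J : Subgroup G} (hJ : IsOpen (J : Set G)) (hn : J.Normal)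
    (hi : J.index = p) : pc J - (p : ℤ) • (1 : Subgroup G → ℤ) ∈ P 𝒰 (p ^ 2) := by
  haveI := hn
  have hcard : Nat.card (G ⧸ J) = p := hi
  haveI : IsCyclic (G ⧸ J) := isCyclic_of_prime_card hcard
  have hc2 : Nat.card (Multiplicative (ZMod p)) = p := Nat.card_zmod p
  haveI : IsCyclic (Multiplicative (ZMod p)) := isCyclic_of_prime_card hc2
  let e : (G ⧸ J) ≃* Multiplicative (ZMod p) := mulEquivOfCyclicCardEq (by rw [hcard, hc2])
  let l : G →* Multiplicative (ZMod p) := e.toMonoidHom.comp (QuotientGroup.mk' J)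
  have hker : l.ker = J := by
    ext g
    rw [MonoidHom.mem_ker]
    change e ((g : G ⧸ J)) = 1 ↔ _
    rw [MulEquiv.map_eq_one_iff, QuotientGroup.eq_one_iff]
  have hne : ∃ g, l g ≠ 1 := by
    by_contra h
    push Not at h
    have h1 : l.ker = ⊤ := (Subgroup.eq_top_iff' _).2 fun g => h g
    rw [hker] at h1
    rw [h1, Subgroup.index_top] at hi
    exact (Fact.out : p.Prime).one_lt.ne hi
  have h := ker_mem hG l hne (by rw [hker]; exact hJ)
  rwa [hker] at h

end Pool.Agent.H73.DU
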