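import Mathlib

/-! # `p`-th roots of elements close to `1` in finite extensions of `ℚ_[l]`

Proof: the integral closure `O` of `ℤ_[l]` in `F` is a finite free `ℤ_[l]`-module, hence
`l`-adically complete, hence Henselian along `(l)`. If `p ≠ l`, Hensel's lemma is applied to
`X ^ p - (1 + l ^ 3 y)` at `1`. If `p = l`, it is applied to
`h(T) = T ^ l - T ^ (l-1) - ∑_{j ≥ 2} (l choose j) l ^ (2j-3) y ^ (j-1) T ^ (l-j)` at `1`; a root
`T` of `h` gives the `l`-th root `1 + l ^ 2 y / T` of `1 + l ^ 3 y`. -/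

namespace Pool.Agent.H73.DU

open Polynomial

/-- Membership in `(l) ^ n` in terms of coordinates. -/
theorem mem_span_pow_iff_coord (l : ℕ) [Fact l.Prime] (O : Type) [CommRing O] [Algebra ℤ_[l] O]
    {ι : Type} [Fintype ι] (b : Module.Basis ι ℤ_[l] O) (n : ℕ) (x : O) :
    x ∈ (Ideal.span {(l : O)} ^ n • ⊤ : Ideal O) ↔
      ∀ i, b.repr x i ∈ (IsLocalRing.maximalIdeal ℤ_[l] ^ n • ⊤ : Ideal ℤ_[l]) := by
  have e1 : (Ideal.span {(l : O)} ^ n • ⊤ : Ideal O) = Ideal.span {(l : O) ^ n} := by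
    rw [Ideal.span_singleton_pow, smul_eq_mul, Ideal.mul_top]
  have e2 : (IsLocalRing.maximalIdeal ℤ_[l] ^ n • ⊤ : Ideal ℤ_[l])
      = Ideal.span {(l : ℤ_[l]) ^ n} := by
    rw [PadicInt.maximalIdeal_eq_span_p, Ideal.span_singleton_pow, smul_eq_mul, Ideal.mul_top]
  rw [e1, e2]
  simp only [Ideal.mem_span_singleton]
  have e3 : ∀ y : O, (l : O) ^ n * y = ((l : ℤ_[l]) ^ n) • y := by
    intro y
    rw [Algebra.smul_def, map_pow, map_natCast]
  constructor
  · rintro ⟨y, rfl⟩ i
    rw [e3, map_smul, Finsupp.smul_apply, smul_eq_mul]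
    exact dvd_mul_right _ _
  · intro h
    choose c hc using h
    refine ⟨∑ i, c i • b i, ?_⟩
    rw [e3]
    apply b.repr.injective
    ext i
    rw [map_smul, Finsupp.smul_apply, smul_eq_mul, hc i]
    congr 1
    rw [Module.Basis.repr_sum_self]

theorem isAdicComplete_of_basis (l : ℕ) [Fact l.Prime] (O : Type) [CommRing O] [Algebra ℤ_[l] O]
    {ι : Type} [Fintype ι] (b : Module.Basis ι ℤ_[l] O) :
    IsAdicComplete (Ideal.span {(l : O)}) O := by
  have hZ : IsAdicComplete (IsLocalRing.maximalIdeal ℤ_[l]) ℤ_[l] := inferInstance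
  refine { haus' := ?_, prec' := ?_ }
  · intro x hx
    apply b.repr.injective
    ext i
    rw [map_zero, Finsupp.zero_apply]
    apply hZ.haus'
    intro n
    have h1 := hx n
    rw [SModEq.zero] at h1 ⊢
    exact (mem_span_pow_iff_coord l O b n x).1 h1 i
  · intro f hf
    have h2 : ∀ i, ∃ L : ℤ_[l], ∀ n, b.repr (f n) i ≡ L
        [SMOD (IsLocalRing.maximalIdeal ℤ_[l] ^ n • ⊤ : Submodule ℤ_[l] ℤ_[l])] := by
      intro i
      apply hZ.prec'
      intro m n hmn
      have h1 := hf hmn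
      rw [SModEq.sub_mem] at h1 ⊢
      have h3 := (mem_span_pow_iff_coord l O b m _).1 h1 i
      rwa [map_sub, Finsupp.sub_apply] at h3
    choose L hL using h2
    refine ⟨∑ i, L i • b i, ?_⟩
    intro n
    rw [SModEq.sub_mem]
    apply (mem_span_pow_iff_coord l O b n _).2
    intro i
    have h4 := hL i n
    rw [SModEq.sub_mem] at h4
    rw [map_sub, Finsupp.sub_apply, Module.Basis.repr_sum_self]
    exact h4

/-- The case `p = l` in a Henselian pair. -/
theorem root_eq (l : ℕ) (hl : 2 ≤ l) (O : Type) [CommRing O]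
    [H : HenselianRing O (Ideal.span {(l : O)})] (y : O) :
    ∃ T : O, IsUnit T ∧ (T + (l : O) ^ 2 * y) ^ l = T ^ l * (1 + (l : O) ^ 3 * y) := by
  classical
  obtain ⟨m, rfl⟩ : ∃ m, l = m + 2 := ⟨l - 2, by omega⟩
  set L : O := ((m + 2 : ℕ) : O) with hLdef
  set Q : O[X] := ∑ i ∈ Finset.range (m + 1),
    C ((((m + 2).choose (i + 2) : ℕ) : O) * L ^ (2 * i) * y ^ (i + 1)) * X ^ (m - i) with hQ
  set h : O[X] := X ^ (m + 2) - (X ^ (m + 1) + C L * Q) with hh
  by_cases hnt : Nontrivial O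
  swap
  · rw [not_nontrivial_iff_subsingleton] at hnt
    exact ⟨1, isUnit_one, Subsingleton.elim _ _⟩
  have hQdeg : Q.degree < ((m + 2 : ℕ) : WithBot ℕ) := by
    rw [hQ]
    apply lt_of_le_of_lt (Polynomial.degree_sum_le _ _)
    rw [Finset.sup_lt_iff (WithBot.bot_lt_coe _)]
    intro i _
    apply lt_of_le_of_lt (Polynomial.degree_C_mul_X_pow_le _ _)
    exact_mod_cast (by omega : m - i < m + 2)
  have hlow : (X ^ (m + 1) + C L * Q : O[X]).degree < ((m + 2 : ℕ) : WithBot ℕ) := by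
    apply lt_of_le_of_lt (Polynomial.degree_add_le _ _)
    apply max_lt
    · rw [Polynomial.degree_X_pow]
      exact_mod_cast (by omega : m + 1 < m + 2)
    · apply lt_of_le_of_lt _ hQdeg
      calc (C L * Q).degree ≤ (C L).degree + Q.degree := Polynomial.degree_mul_le _ _
        _ ≤ 0 + Q.degree := by gcongr; exact Polynomial.degree_C_le
        _ = Q.degree := zero_add _
  have hmon : h.Monic := by
    rw [hh]
    exact (Polynomial.monic_X_pow (m + 2)).sub_of_left (by
      rw [Polynomial.degree_X_pow]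
      exact hlow)
  have hev : ∀ T : O, h.eval T = T ^ (m + 2) - (T ^ (m + 1) + L * Q.eval T) := by
    intro T
    rw [hh]
    simp only [eval_sub, eval_add, eval_pow, eval_X, eval_mul, eval_C]
  have hQev : ∀ T : O, Q.eval T = ∑ i ∈ Finset.range (m + 1),
      (((m + 2).choose (i + 2) : ℕ) : O) * L ^ (2 * i) * y ^ (i + 1) * T ^ (m - i) := by
    intro T
    rw [hQ, eval_finsetSum]
    apply Finset.sum_congr rfl
    intro i _
    simp only [eval_mul, eval_C, eval_pow, eval_X]
  have hder : h.derivative.eval 1 = 1 - L * Q.derivative.eval 1 := by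
    rw [hh]
    simp only [derivative_sub, derivative_add, derivative_X_pow, derivative_mul, derivative_C,
      eval_sub, eval_add, eval_mul, eval_C, eval_pow, eval_X, one_pow, zero_mul, zero_add]
    push_cast
    ring
  obtain ⟨T, hT, hT1⟩ := H.is_henselian h hmon 1 (by
      rw [hev, Ideal.mem_span_singleton]
      exact ⟨-(Q.eval 1), by ring⟩) (by
      rw [hder, map_sub, map_mul, map_one]
      have : Ideal.Quotient.mk (Ideal.span {L}) L = 0 := by
        rw [Ideal.Quotient.eq_zero_iff_mem]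
        exact Ideal.mem_span_singleton_self L
      rw [this, zero_mul, sub_zero]
      exact isUnit_one)
  have hTu : IsUnit T := by
    have h1 := H.jac hT1
    rw [Ideal.mem_jacobson_bot] at h1
    have h2 := h1 1
    rwa [mul_one, sub_add_cancel] at h2
  refine ⟨T, hTu, ?_⟩
  rw [IsRoot.def, hev, sub_eq_zero, hQev] at hT
  have h3 : (T + L ^ 2 * y) ^ (m + 2) = T ^ (m + 2) + L ^ 3 * y * (T ^ (m + 1)
      + L * ∑ i ∈ Finset.range (m + 1),
      (((m + 2).choose (i + 2) : ℕ) : O) * L ^ (2 * i) * y ^ (i + 1) * T ^ (m - i)) := by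
    rw [add_comm, add_pow, Finset.sum_range_succ', Finset.sum_range_succ', mul_add, ← mul_assoc,
      Finset.mul_sum]
    have h4 : ∀ i ∈ Finset.range (m + 1),
        (L ^ 2 * y) ^ (i + 1 + 1) * T ^ (m + 2 - (i + 1 + 1)) * ((m + 2).choose (i + 1 + 1) : O)
        = L ^ 3 * y * L * ((((m + 2).choose (i + 2) : ℕ) : O) * L ^ (2 * i) * y ^ (i + 1)
          * T ^ (m - i)) := by
      intro i hi
      rw [show m + 2 - (i + 1 + 1) = m - i by omega]
      rw [show (i + 1 + 1) = i + 2 from rfl]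
      ring
    rw [Finset.sum_congr rfl h4]
    simp only [zero_add, pow_zero, one_mul, Nat.choose_zero_right, Nat.cast_one, mul_one,
      Nat.sub_zero, pow_one, Nat.choose_one_right]
    rw [← hLdef, show m + 2 - 1 = m + 1 by omega]
    ring
  rw [h3, ← hT]
  ring

/-- The case `p ≠ l` in a Henselian pair. -/
theorem root_ne (l p : ℕ) (hp : 1 ≤ p) (hlp : Nat.Coprime l p) (O : Type) [CommRing O]
    [H : HenselianRing O (Ideal.span {(l : O)})] (y : O) :
    ∃ T : O, T ^ p = (1 + (l : O) ^ 3 * y) := by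
  obtain ⟨T, hT, -⟩ := H.is_henselian (X ^ p - C (1 + (l : O) ^ 3 * y)) 
    (monic_X_pow_sub_C _ (by omega)) 1 (by
      rw [eval_sub, eval_pow, eval_X, eval_C, one_pow, Ideal.mem_span_singleton]
      exact ⟨-((l : O) ^ 2 * y), by ring⟩) (by
      rw [derivative_sub, derivative_X_pow, derivative_C, sub_zero, eval_mul, eval_C, eval_pow,
        eval_X, one_pow, mul_one]
      have hb : IsCoprime (l : ℤ) (p : ℤ) := Nat.isCoprime_iff_coprime.2 hlp
      obtain ⟨a, b, hab⟩ := hb
      apply IsUnit.of_mul_eq_one (Ideal.Quotient.mk _ (b : O))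
      rw [← map_mul, ← map_one (Ideal.Quotient.mk (Ideal.span {(l : O)})), Ideal.Quotient.eq,
        Ideal.mem_span_singleton]
      refine ⟨-(a : O), ?_⟩
      have h1 : ((a : O) * (l : O) + (b : O) * (p : O)) = 1 := by
        exact_mod_cast congrArg (fun z : ℤ => (z : O)) hab
      linear_combination h1)
  refine ⟨T, ?_⟩
  rw [IsRoot.def, eval_sub, eval_pow, eval_X, eval_C, sub_eq_zero] at hT
  exact hT

theorem exists_root (l p : ℕ) [Fact l.Prime] [Fact p.Prime] (F : Type) [Field F]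
    [Algebra ℚ_[l] F] [FiniteDimensional ℚ_[l] F] (y : F) (hy : IsIntegral ℤ y) :
    ∃ β : F, β ^ p = 1 + (l : F) ^ 3 * y := by
  let _ : Algebra ℤ_[l] F := ((algebraMap ℚ_[l] F).comp (algebraMap ℤ_[l] ℚ_[l])).toAlgebra
  have _ : IsScalarTower ℤ_[l] ℚ_[l] F := IsScalarTower.of_algebraMap_eq' rfl
  have _ : CharZero F := charZero_of_injective_algebraMap (algebraMap ℚ_[l] F).injective
  have _ : Module.Finite ℤ_[l] (integralClosure ℤ_[l] F) :=
    IsIntegralClosure.finite ℤ_[l] ℚ_[l] F (integralClosure ℤ_[l] F)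
  have _ : Module.IsTorsionFree ℤ_[l] F := Module.IsTorsionFree.trans_faithfulSMul ℤ_[l] ℚ_[l] F
  have _ : Module.Free ℤ_[l] (integralClosure ℤ_[l] F) :=
    IsIntegralClosure.module_free ℤ_[l] ℚ_[l] F (integralClosure ℤ_[l] F)
  have hc : IsAdicComplete (Ideal.span {(l : integralClosure ℤ_[l] F)})
      (integralClosure ℤ_[l] F) :=
    isAdicComplete_of_basis l (integralClosure ℤ_[l] F)
      (Module.Free.chooseBasis ℤ_[l] (integralClosure ℤ_[l] F))
  have hH : HenselianRing (integralClosure ℤ_[l] F)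
      (Ideal.span {(l : integralClosure ℤ_[l] F)}) := inferInstance
  have hy' : IsIntegral ℤ_[l] y := hy.tower_top
  set Y : integralClosure ℤ_[l] F := ⟨y, hy'⟩ with hY
  by_cases hlp : l = p
  · subst hlp
    obtain ⟨T, hT, hTe⟩ := root_eq l (Fact.out : l.Prime).two_le _ Y
    have hT0 : (T : F) ≠ 0 := by
      intro h0
      have h1 : T = 0 := Subtype.ext h0
      rw [h1] at hT
      exact not_isUnit_zero hT
    refine ⟨1 + (l : F) ^ 2 * y / (T : F), ?_⟩
    have h2 := congrArg (fun z : integralClosure ℤ_[l] F => (z : F)) hTe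
    have h3 : ((T : F) + (l : F) ^ 2 * y) ^ l = (T : F) ^ l * (1 + (l : F) ^ 3 * y) := by
      simpa [hY] using h2
    have h4 : (1 + (l : F) ^ 2 * y / (T : F)) = ((T : F) + (l : F) ^ 2 * y) / (T : F) := by
      field_simp
    rw [h4, div_pow, h3]
    field_simp
  · obtain ⟨T, hT⟩ := root_ne l p (Fact.out : p.Prime).one_le
      ((Nat.coprime_primes (Fact.out) (Fact.out)).2 hlp) _ Y
    refine ⟨(T : F), ?_⟩
    have h2 := congrArg (fun z : integralClosure ℤ_[l] F => (z : F)) hT
    simpa [hY] using h2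

end Pool.Agent.H73.DU
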