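import Pool.Agent.H73.DU.Nice
import Pool.Agent.H73.DU.Hens

/-! # Decomposition groups and local triviality -/

namespace Pool.Agent.H73.DU

/-- the absolute Galois group of the rationals -/
abbrev GQ : Type := AlgebraicClosure ℚ ≃ₐ[ℚ] AlgebraicClosure ℚ

/-- the decomposition group of an embedding of `AlgebraicClosure ℚ` in an extension of `k` -/
def decomp (k : Type) {Ω : Type} [Field k] [Field Ω] [Algebra k Ω]
    (i : AlgebraicClosure ℚ →+* Ω) : Subgroup GQ where
  carrier := {g | ∃ σ : Ω ≃ₐ[k] Ω, ∀ x, i (g x) = σ (i x)}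
  mul_mem' := by
    rintro a b ⟨σ, hσ⟩ ⟨τ, hτ⟩
    refine ⟨σ * τ, fun x => ?_⟩
    change i (a (b x)) = σ (τ (i x))
    rw [hσ, hτ]
  one_mem' := ⟨1, fun _ => rfl⟩
  inv_mem' := by
    rintro a ⟨σ, hσ⟩
    refine ⟨σ⁻¹, fun x => ?_⟩
    change _ = σ.symm (i x)
    rw [eq_comm, AlgEquiv.symm_apply_eq, ← hσ]
    change i x = i (a (a.symm x))
    rw [AlgEquiv.apply_symm_apply]

theorem mem_decomp {k : Type} {Ω : Type} [Field k] [Field Ω] [Algebra k Ω]
    {i : AlgebraicClosure ℚ →+* Ω} {g : GQ} :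
    g ∈ decomp k i ↔ ∃ σ : Ω ≃ₐ[k] Ω, ∀ x, i (g x) = σ (i x) := Iff.rfl

/-- an embedding in the algebraic closure of the `l`-adic numbers -/
noncomputable def emb (l : ℕ) [Fact l.Prime] : AlgebraicClosure ℚ →+* AlgebraicClosure ℚ_[l] :=
  letI : Algebra ℚ (AlgebraicClosure ℚ) := AlgebraicClosure.instAlgebra ℚ
  letI : Algebra ℚ (AlgebraicClosure ℚ_[l]) := DivisionRing.toRatAlgebra
  haveI : Algebra.IsAlgebraic ℚ (AlgebraicClosure ℚ) := AlgebraicClosure.isAlgebraic ℚ
  (IsAlgClosed.lift : AlgebraicClosure ℚ →ₐ[ℚ] AlgebraicClosure ℚ_[l]).toRingHom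

theorem locTriv {p : ℕ} [Fact p.Prime] (l : ℕ) [Fact l.Prime]
    (L : IntermediateField ℚ (AlgebraicClosure ℚ))
    [FiniteDimensional ℚ L] [IsGalois ℚ L] {ζ : AlgebraicClosure ℚ} (hζ : IsPrimitiveRoot ζ p)
    (hζL : ζ ∈ L) (b y : L) (hy : IsIntegral ℤ y) (m : ℤ) (hm : (l : ℤ) ^ 3 ∣ m)
    (hb : b = 1 + m * y) (g d : GQ) (hd : d ∈ L.fixingSubgroup) (hdd : d ∈ decomp ℚ_[l] (emb l))
    (x : AlgebraicClosure ℚ) (hx : x ^ p = g (b : AlgebraicClosure ℚ)) : d x = x := by
  classical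
  have hp : p.Prime := Fact.out
  by_cases hb0 : b = 0
  · have : x ^ p = 0 := by rw [hx, hb0]; simp
    rw [pow_eq_zero_iff hp.ne_zero] at this
    rw [this, map_zero]
  obtain ⟨σ, hσ⟩ := hdd
  set i := emb l with hi
  have hiinj : Function.Injective i := i.injective
  obtain ⟨α, hα⟩ := Field.exists_primitive_element ℚ L
  have hiα : IsIntegral ℚ_[l] (i (α : AlgebraicClosure ℚ)) := Algebra.IsIntegral.isIntegral _
  set F : IntermediateField ℚ_[l] (AlgebraicClosure ℚ_[l]) :=
    IntermediateField.adjoin ℚ_[l] {i (α : AlgebraicClosure ℚ)} with hF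
  have hFfin : FiniteDimensional ℚ_[l] F := IntermediateField.adjoin.finiteDimensional hiα
  have hiF : ∀ z ∈ L, i z ∈ F := by
    intro z hz
    have h1 : ∀ w ∈ IntermediateField.adjoin ℚ ({α} : Set L),
        i (w : AlgebraicClosure ℚ) ∈ F := by
      intro w hw
      induction hw using IntermediateField.adjoin_induction with
      | mem x hx =>
        rw [Set.mem_singleton_iff.1 hx]
        exact IntermediateField.mem_adjoin_simple_self _ _
      | algebraMap q =>
        have : ((algebraMap ℚ L q : L) : AlgebraicClosure ℚ) = (q : AlgebraicClosure ℚ) := by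
          simp
        rw [this, map_ratCast]
        exact SubfieldClass.ratCast_mem F q
      | add x y _ _ hx hy =>
        rw [IntermediateField.coe_add, map_add]
        exact add_mem hx hy
      | inv x _ hx =>
        rw [IntermediateField.coe_inv, map_inv₀]
        exact inv_mem hx
      | mul x y _ _ hx hy =>
        rw [IntermediateField.coe_mul, map_mul]
        exact mul_mem hx hy
    exact h1 ⟨z, hz⟩ (by rw [hα]; trivial)
  -- `g` preserves `L`
  have hgL : ∀ z : L, g (z : AlgebraicClosure ℚ) ∈ L := by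
    intro z
    have h2 : g z = ((g.restrictNormal L) z : AlgebraicClosure ℚ) :=
      (AlgEquiv.restrictNormal_commutes g L z).symm
    rw [h2]
    exact Subtype.mem _
  obtain ⟨m', rfl⟩ := hm
  have hyF : i (g (y : AlgebraicClosure ℚ)) ∈ F := hiF _ (hgL y)
  have hyint : IsIntegral ℤ (⟨i (g (y : AlgebraicClosure ℚ)), hyF⟩ : F) := by
    have h1 : IsIntegral ℤ (i (g (y : AlgebraicClosure ℚ))) := by
      have h2 : IsIntegral ℤ (y : AlgebraicClosure ℚ) :=
        hy.map ((L.val : L →ₐ[ℚ] AlgebraicClosure ℚ).restrictScalars ℤ)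
      exact h2.map (i.comp (g : AlgebraicClosure ℚ →+* AlgebraicClosure ℚ)).toIntAlgHom
    exact (isIntegral_algHom_iff ((F.val : F →ₐ[ℚ_[l]] _).restrictScalars ℤ)
      Subtype.val_injective).1 h1
  have hm'int : IsIntegral ℤ (m' : F) :=
    ⟨Polynomial.X - Polynomial.C m', Polynomial.monic_X_sub_C m', by simp⟩
  obtain ⟨β, hβ⟩ := exists_root l p F ((m' : F) * ⟨i (g (y : AlgebraicClosure ℚ)), hyF⟩)
    (hm'int.mul hyint)
  have hβ' : (β : AlgebraicClosure ℚ_[l]) ^ p = i x ^ p := by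
    have h1 : (β : AlgebraicClosure ℚ_[l]) ^ p =
        1 + (l : AlgebraicClosure ℚ_[l]) ^ 3 * ((m' : AlgebraicClosure ℚ_[l]) * i (g y)) := by
      have h0 := congrArg (algebraMap F (AlgebraicClosure ℚ_[l])) hβ
      rw [map_pow, map_add, map_one, map_mul, map_mul, map_pow, map_natCast, map_intCast] at h0
      exact h0
    have h2 : (b : AlgebraicClosure ℚ) =
        1 + ((((l : ℤ) ^ 3 * m' : ℤ) : AlgebraicClosure ℚ)) * (y : AlgebraicClosure ℚ) := by
      rw [hb]
      push_cast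
      rfl
    rw [h1, ← map_pow, hx, h2, map_add, map_add, map_one, map_one, map_mul, map_mul, map_intCast,
      map_intCast]
    push_cast
    ring
  have hβ0 : (β : AlgebraicClosure ℚ_[l]) ≠ 0 := by
    intro h
    rw [h, zero_pow hp.ne_zero] at hβ'
    have h1 : i x = 0 := (pow_eq_zero_iff hp.ne_zero).1 hβ'.symm
    have h2 : x = 0 := (map_eq_zero i).1 h1
    rw [h2, zero_pow hp.ne_zero] at hx
    have h3 : (b : AlgebraicClosure ℚ) = 0 := (map_eq_zero g).1 hx.symm
    exact hb0 (Subtype.ext h3)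
  have hroot : (i x / β) ^ p = 1 := by
    rw [div_pow, ← hβ', div_self (pow_ne_zero _ hβ0)]
  have hiζ : IsPrimitiveRoot (i ζ) p := hζ.map_of_injective hiinj
  obtain ⟨k, -, hk⟩ := hiζ.eq_pow_of_pow_eq_one hroot
  have hxF : i x ∈ F := by
    have : i x = i ζ ^ k * β := by
      rw [hk, div_mul_cancel₀ _ hβ0]
    rw [this]
    exact mul_mem (pow_mem (hiF _ hζL) _) β.2
  have hσF : ∀ z ∈ F, σ z = z := by
    intro z hz
    induction hz using IntermediateField.adjoin_induction with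
    | mem w hw =>
      rw [Set.mem_singleton_iff.1 hw, ← hσ]
      congr 1
      exact (IntermediateField.mem_fixingSubgroup_iff L d).1 hd _ α.2
    | algebraMap q => exact σ.commutes q
    | add w v _ _ hw hv => rw [map_add, hw, hv]
    | inv w _ hw => rw [map_inv₀, hw]
    | mul w v _ _ hw hv => rw [map_mul, hw, hv]
  apply hiinj
  rw [hσ, hσF _ hxF]

end Pool.Agent.H73.DU
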