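import Mathlib

/-! # Prime divisors of polynomial values

PLAN. If `f.eval 0 = 0`: take `a = 0` and a prime `ℓ > |D|` (`Nat.exists_infinite_primes`).
Otherwise let `c = f.eval 0`; `f = C c + X * g` (`Polynomial.divX_mul_X_add`), and
`f.eval (c * D * t) = c * (1 + D * t * g.eval (c * D * t))` for all `t : ℤ`. The polynomial
`h = 1 + C D * X * g.comp (C (c * D) * X)` is not constant (degree = degree of `f` > 0), so it takes
the values `1, -1` only finitely often and there is `t` with `h.eval t ∉ {1, -1}`, so there is a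
prime `ℓ ∣ h.eval t` (`Int.exists_prime_and_dvd`, `Nat.minFac`); `h.eval t ≡ 1` modulo `D`, so
`ℓ ∤ D` (if `ℓ ∣ D` then `ℓ ∣ 1`). -/

namespace Pool.Agent.H73.DU

theorem exists_prime_dvd_eval (f : Polynomial ℤ) (hf : 0 < f.natDegree) (D : ℤ) (hD : D ≠ 0) :
    ∃ (l : ℕ) (a : ℤ), l.Prime ∧ (l : ℤ) ∣ f.eval a ∧ ¬ (l : ℤ) ∣ D := by
  by_cases h0 : f.eval 0 = 0
  · obtain ⟨l, hl, hlp⟩ := Nat.exists_infinite_primes (D.natAbs + 1)
    refine ⟨l, 0, hlp, by rw [h0]; exact dvd_zero _, ?_⟩
    intro h
    have h1 := Int.natAbs_dvd_natAbs.2 h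
    rw [Int.natAbs_natCast] at h1
    have h2 := Nat.le_of_dvd (Int.natAbs_pos.2 hD) h1
    omega
  · obtain ⟨c, hc⟩ : ∃ c, c = f.eval 0 := ⟨_, rfl⟩
    rw [← hc] at h0
    have hval : ∀ t : ℤ, f.eval (c * D * t) = c * (1 + D * t * f.divX.eval (c * D * t)) := by
      intro t
      have h1 := congrArg (Polynomial.eval (c * D * t)) (Polynomial.divX_mul_X_add f)
      rw [Polynomial.eval_add, Polynomial.eval_mul, Polynomial.eval_X, Polynomial.eval_C,
        Polynomial.coeff_zero_eq_eval_zero, ← hc] at h1
      rw [← h1]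
      ring
    obtain ⟨t, ht1, ht2⟩ : ∃ t : ℤ, f.eval (c * D * t) ≠ c ∧ f.eval (c * D * t) ≠ -c := by
      by_contra hcon
      push Not at hcon
      have hz : (f - Polynomial.C c) * (f + Polynomial.C c) = 0 := by
        apply Polynomial.eq_zero_of_infinite_isRoot
        refine Set.infinite_of_injective_forall_mem (f := fun t : ℤ => c * D * t) ?_ ?_
        · intro a b hab
          exact mul_left_cancel₀ (mul_ne_zero h0 hD) hab
        · intro t
          change Polynomial.IsRoot _ _
          rw [Polynomial.IsRoot, Polynomial.eval_mul, Polynomial.eval_sub, Polynomial.eval_add,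
            Polynomial.eval_C]
          by_cases h : f.eval (c * D * t) = c
          · rw [h, sub_self, zero_mul]
          · rw [hcon t h]
            ring
      rcases mul_eq_zero.1 hz with h | h
      · have h1 : f = Polynomial.C c := sub_eq_zero.1 h
        rw [h1, Polynomial.natDegree_C] at hf
        exact lt_irrefl _ hf
      · have h1 : f = Polynomial.C (-c) := by
          rw [Polynomial.C_neg]
          exact eq_neg_of_add_eq_zero_left h
        rw [h1, Polynomial.natDegree_C] at hf
        exact lt_irrefl _ hf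
    obtain ⟨w, hw⟩ : ∃ w, w = 1 + D * t * f.divX.eval (c * D * t) := ⟨_, rfl⟩
    have hval' := hval t
    rw [← hw] at hval'
    have hw1 : w.natAbs ≠ 1 := by
      intro h
      rcases Int.natAbs_eq w with h1 | h1
      · rw [h, Nat.cast_one] at h1
        rw [h1, mul_one] at hval'
        exact ht1 hval'
      · rw [h, Nat.cast_one] at h1
        rw [h1, mul_neg, mul_one] at hval'
        exact ht2 hval'
    obtain ⟨l, hl, hlw⟩ := Nat.exists_prime_and_dvd hw1
    have hlw' : (l : ℤ) ∣ w := Int.natCast_dvd.2 hlw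
    refine ⟨l, c * D * t, hl, ?_, ?_⟩
    · rw [hval']
      exact hlw'.mul_left c
    · intro hlD
      have h2 : (l : ℤ) ∣ D * t * f.divX.eval (c * D * t) := (hlD.mul_right t).mul_right _
      have h3 := dvd_sub hlw' h2
      rw [hw, add_sub_cancel_right] at h3
      have h4 : l ∣ 1 := by exact_mod_cast h3
      exact hl.one_lt.ne' (Nat.dvd_one.1 h4)

end Pool.Agent.H73.DU
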